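import Mathlib
/-!
# Finite complete ShortLex rewriting systems (shared definitions, MP_6a3c10_al)
-/
namespace Pool.Agent.SLX

/-- One application of a rule of `E`: `u = p l q` and `v = p r q` for a rule `l => r`. -/
def Step {A : Type} (E : Set (List A × List A)) (u v : List A) : Prop :=
  ∃ p l r q : List A, (l, r) ∈ E ∧ u = p ++ l ++ q ∧ v = p ++ r ++ q

/-- `v` is an irreducible string to which `u` reduces. -/
def NormalForm {A : Type} (E : Set (List A × List A)) (u v : List A) : Prop :=
  Relation.ReflTransGen (Step E) u v ∧ ∀ w, ¬ Step E v w

/-- The element represented by a string. -/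
def val {A G : Type} [Group G] (π : A → G) (w : List A) : G := (w.map π).prod

/-- `E` is a finite complete set of Knuth-Bendix rules with respect to the ShortLex order for the
group `G` with the monoid generators `π a`, `a` in the ordered alphabet `A`. -/
structure IsSystem {A G : Type} [LinearOrder A] [Group G] (π : A → G)
    (E : Set (List A × List A)) : Prop where
  /-- there are finitely many rules -/
  finite : E.Finite
  /-- every rule replaces a string by a ShortLex smaller one -/
  rule : ∀ l r : List A, (l, r) ∈ E → List.Shortlex (· < ·) r l
  /-- every string reduces to a unique irreducible string -/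
  complete : ∀ u : List A, ∃! v : List A, NormalForm E u v
  /-- the `π a` generate `G` as a monoid -/
  surj : ∀ g : G, ∃ w : List A, val π w = g
  /-- `G` is the monoid presented by the relations `l = r` for the rules `l => r` -/
  presents : ∀ u v : List A, val π u = val π v ↔ Relation.EqvGen (Step E) u v

/-- `G` has a finite complete ShortLex rewriting system for some finite ordered alphabet. -/
def HasSystem (G : Type) [Group G] : Prop :=
  ∃ (A : Type) (_ : Finite A) (_ : LinearOrder A) (π : A → G) (E : Set (List A × List A)),
    IsSystem π E

/-- `g` is a product of at most `n` elements of `S`. -/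
def IsShort {G : Type} [Group G] (S : Set G) (n : ℕ) (g : G) : Prop :=
  ∃ v : List G, (∀ x ∈ v, x ∈ S) ∧ v.prod = g ∧ v.length ≤ n

/-- The subgroup `C` of `G` is finitely generated and undistorted: there is a finite subset `S` of
`C` such that for every finite subset `X` of `G` there is a constant `L` such that every element of
`C` that is a product of `n` elements of `X` is a product of at most `L * n + L` elements
of `S`, and `S` generates `C`. -/
def Undistorted {G : Type} [Group G] (C : Subgroup G) : Prop :=
  ∃ S : Set G, S.Finite ∧ Subgroup.closure S = C ∧ ∀ X : Set G, X.Finite → ∃ L : ℕ,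
    ∀ (n : ℕ) (g : G), IsShort X n g → g ∈ C → IsShort S (L * n + L) g

/-- `H` is a wall of `C` crossed by `y`: `y` commutes with all elements of `C`, `H` is invariant
under left multiplication by `C`, for every `s` the elements `x` such that exactly one of `x`,
`x s` lies in `H` lie in finitely many cosets `C f`, and `H` contains `y^k` for all large `k`
but not `y^(-k)`. -/
structure IsWall {G : Type} [Group G] (C : Subgroup G) (y : G) (H : Set G) : Prop where
  comm : ∀ c ∈ C, y * c = c * y
  inv : ∀ c ∈ C, ∀ x, c * x ∈ H ↔ x ∈ H
  fin : ∀ s : G, ∃ F : Set G, F.Finite ∧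
    ∀ x, (x ∈ H ↔ x * s ∈ H) ∨ ∃ c ∈ C, ∃ f ∈ F, x = c * f
  pos : ∃ K : ℕ, ∀ k : ℕ, K ≤ k → y ^ k ∈ H
  neg : ∃ K : ℕ, ∀ k : ℕ, K ≤ k → (y ^ k)⁻¹ ∉ H

end Pool.Agent.SLX
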