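import Mathlib
import Pool.Agent.SLX.Defs
/-!
# Rewriting: two strings with the same value are joined by moves through short strings
-/
namespace Pool.Agent.SLX
open Relation

variable {A G : Type} [LinearOrder A] [Group G] {π : A → G} {E : Set (List A × List A)}

theorem val_nil : val π [] = 1 := rfl

theorem val_cons (a : A) (w : List A) : val π (a :: w) = π a * val π w := by
  simp [val]

theorem val_append (u v : List A) : val π (u ++ v) = val π u * val π v := by
  simp [val]

theorem IsSystem.val_rule (h : IsSystem π E) {l r : List A} (hr : (l, r) ∈ E) :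
    val π l = val π r := by
  rw [h.presents]
  exact EqvGen.rel _ _ ⟨[], l, r, [], hr, by simp, by simp⟩

theorem IsSystem.length_rule (h : IsSystem π E) {l r : List A} (hr : (l, r) ∈ E) :
    r.length ≤ l.length := by
  have := h.rule l r hr
  rw [List.shortlex_def] at this
  rcases this with h1 | h1
  · exact h1.le
  · exact h1.1.le

theorem IsSystem.exists_bound (h : IsSystem π E) :
    ∃ R : ℕ, ∀ l r : List A, (l, r) ∈ E → l.length ≤ R ∧ r.length ≤ R := by
  obtain ⟨R, hR⟩ := (h.finite.image (fun x => x.1.length)).bddAbove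
  refine ⟨R, fun l r hr => ?_⟩
  have h1 : l.length ≤ R := hR ⟨(l, r), hr, rfl⟩
  exact ⟨h1, (h.length_rule hr).trans h1⟩

theorem IsSystem.step_length (h : IsSystem π E) {u v : List A} (hs : Step E u v) :
    v.length ≤ u.length := by
  obtain ⟨p, l, r, q, hr, rfl, rfl⟩ := hs
  have := h.length_rule hr
  simp only [List.length_append]
  omega

theorem IsSystem.nf_of_step (h : IsSystem π E) {u v w : List A} (hs : Step E u v)
    (hv : NormalForm E v w) : NormalForm E u w :=
  ⟨ReflTransGen.head hs hv.1, hv.2⟩

theorem IsSystem.nf_iff (h : IsSystem π E) {u v : List A} (he : EqvGen (Step E) u v) :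
    ∀ w, NormalForm E u w ↔ NormalForm E v w := by
  induction he with
  | rel x y hs =>
    intro w
    constructor
    · intro hx
      obtain ⟨w', hw', _⟩ := h.complete y
      have h1 := h.nf_of_step hs hw'
      have h2 := (h.complete x).unique hx h1
      rw [h2]
      exact hw'
    · exact h.nf_of_step hs
  | refl x => intro w; exact Iff.rfl
  | symm x y _ ih => intro w; exact (ih w).symm
  | trans x y z _ _ ih1 ih2 => intro w; exact (ih1 w).trans (ih2 w)

theorem IsSystem.exists_common (h : IsSystem π E) {u v : List A} (he : val π u = val π v) :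
    ∃ w, ReflTransGen (Step E) u w ∧ ReflTransGen (Step E) v w := by
  rw [h.presents] at he
  obtain ⟨w, hw, _⟩ := h.complete u
  exact ⟨w, hw.1, ((h.nf_iff he w).1 hw).1⟩

/-- Along a reduction every function of the string that changes does so in some step. -/
theorem IsSystem.exists_step_of_ne (h : IsSystem π E) {β : Type} (Φ : List A → β) {u w : List A}
    (hs : ReflTransGen (Step E) u w) (hne : Φ u ≠ Φ w) :
    ∃ p l r q : List A, (l, r) ∈ E ∧ (p ++ l ++ q).length ≤ u.length ∧
      Φ (p ++ l ++ q) ≠ Φ (p ++ r ++ q) ∧ val π (p ++ l ++ q) = val π u := by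
  induction hs using ReflTransGen.head_induction_on with
  | refl => exact absurd rfl hne
  | head hs' hrest ih =>
    rename_i a c
    by_cases hac : Φ a = Φ c
    · obtain ⟨p, l, r, q, h1, h2, h3, h4⟩ := ih (by rw [← hac]; exact hne)
      refine ⟨p, l, r, q, h1, h2.trans (h.step_length hs'), h3, ?_⟩
      rw [h4]
      symm
      rw [h.presents]
      exact EqvGen.rel _ _ hs'
    · obtain ⟨p, l, r, q, h1, rfl, rfl⟩ := hs'
      exact ⟨p, l, r, q, h1, le_rfl, hac, rfl⟩

theorem IsSystem.exists_move (h : IsSystem π E) {β : Type} (Φ : List A → β) {u v : List A}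
    {M : ℕ} (hu : u.length ≤ M) (hv : v.length ≤ M) (he : val π u = val π v) (hne : Φ u ≠ Φ v) :
    ∃ p l r q : List A, (l, r) ∈ E ∧ (p ++ l ++ q).length ≤ M ∧
      Φ (p ++ l ++ q) ≠ Φ (p ++ r ++ q) ∧ val π (p ++ l ++ q) = val π u := by
  obtain ⟨w, hw1, hw2⟩ := h.exists_common he
  by_cases h1 : Φ u = Φ w
  · have h2 : Φ v ≠ Φ w := by rw [← h1]; exact hne.symm
    obtain ⟨p, l, r, q, h3, h4, h5, h6⟩ := h.exists_step_of_ne Φ hw2 h2
    exact ⟨p, l, r, q, h3, h4.trans hv, h5, by rw [h6, he]⟩
  · obtain ⟨p, l, r, q, h3, h4, h5, h6⟩ := h.exists_step_of_ne Φ hw1 h1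
    exact ⟨p, l, r, q, h3, h4.trans hu, h5, h6⟩

/-! ### Word length -/

/-- The least length of a string with value `g`. -/
noncomputable def len (π : A → G) (g : G) : ℕ := sInf {n | ∃ w : List A, w.length = n ∧ val π w = g}

theorem IsSystem.exists_len (h : IsSystem π E) (g : G) :
    ∃ w : List A, w.length = len π g ∧ val π w = g := by
  have hne : {n | ∃ w : List A, w.length = n ∧ val π w = g}.Nonempty := by
    obtain ⟨w, hw⟩ := h.surj g
    exact ⟨w.length, w, rfl, hw⟩
  exact Nat.sInf_mem hne

theorem len_val_le (w : List A) : len π (val π w) ≤ w.length :=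
  Nat.sInf_le ⟨w, rfl, rfl⟩

theorem IsSystem.len_mul_le (h : IsSystem π E) (g g' : G) :
    len π (g * g') ≤ len π g + len π g' := by
  obtain ⟨w, hw1, hw2⟩ := h.exists_len g
  obtain ⟨w', hw1', hw2'⟩ := h.exists_len g'
  have := len_val_le (π := π) (w ++ w')
  rw [val_append, hw2, hw2', List.length_append, hw1, hw1'] at this
  exact this

theorem IsSystem.ball_finite [Finite A] (h : IsSystem π E) (n : ℕ) : {g | len π g ≤ n}.Finite := by
  have h1 : {w : List A | w.length ≤ n}.Finite := List.finite_length_le A n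
  refine (h1.image (val π)).subset ?_
  intro g hg
  obtain ⟨w, hw1, hw2⟩ := h.exists_len g
  exact ⟨w, by rw [Set.mem_ofPred_eq, hw1]; exact hg, hw2⟩

end Pool.Agent.SLX
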