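import Mathlib
import Pool.Agent.SLX.Rewriting
/-!
# The crossing cocycle of a wall
-/
namespace Pool.Agent.SLX
open Relation

variable {A G : Type} [LinearOrder A] [Group G] {π : A → G} {E : Set (List A × List A)}
  {C : Subgroup G} {y : G} {H : Set G}

/-- The indicator function of `H`. -/
noncomputable def ind (H : Set G) (x : G) : ℤ := by
  classical
  exact if x ∈ H then 1 else 0

theorem ind_congr {x x' : G} (h : x ∈ H ↔ x' ∈ H) : ind H x = ind H x' := by
  classical
  unfold ind
  simp only [h]

/-- Crossing number of the step from `g` to `g * s`. -/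
noncomputable def cr (H : Set G) (g s : G) : ℤ := ind H (g * s) - ind H g

theorem cr_ne {g s : G} (h : cr H g s ≠ 0) : ¬ (g ∈ H ↔ g * s ∈ H) := by
  intro h1
  apply h
  unfold cr
  rw [ind_congr h1, sub_self]

/-- The weighted crossing number of the path that starts at `g` and reads `w`. -/
noncomputable def wcr (π : A → G) (H : Set G) (q : G → ℤ) : G → List A → ℤ
  | _, [] => 0
  | g, a :: w => cr H g (π a) * q g + wcr π H q (g * π a) w

theorem wcr_nil (q : G → ℤ) (g : G) : wcr π H q g [] = 0 := rfl

theorem wcr_cons (q : G → ℤ) (g : G) (a : A) (w : List A) :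
    wcr π H q g (a :: w) = cr H g (π a) * q g + wcr π H q (g * π a) w := rfl

theorem wcr_append (q : G → ℤ) (g : G) (u v : List A) :
    wcr π H q g (u ++ v) = wcr π H q g u + wcr π H q (g * val π u) v := by
  induction u generalizing g with
  | nil => simp [wcr_nil, val_nil]
  | cons a u ih =>
    rw [List.cons_append, wcr_cons, wcr_cons, ih, val_cons, mul_assoc, add_assoc]

/-- If the weight is constant at all crossings, the weighted crossing number is determined by the
end points. -/
theorem wcr_const (q : G → ℤ) (τ : ℤ) (g : G) (w : List A)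
    (hq : ∀ (u : List A) (a : A) (v : List A), w = u ++ a :: v →
      cr H (g * val π u) (π a) ≠ 0 → q (g * val π u) = τ) :
    wcr π H q g w = τ * (ind H (g * val π w) - ind H g) := by
  induction w generalizing g with
  | nil => simp [wcr_nil, val_nil]
  | cons a w ih =>
    rw [wcr_cons, ih (g * π a)]
    · have h1 : cr H g (π a) * q g = τ * cr H g (π a) := by
        by_cases h0 : cr H g (π a) = 0
        · rw [h0]; ring
        · have := hq [] a w rfl (by rw [val_nil, mul_one]; exact h0)
          rw [val_nil, mul_one] at this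
          rw [this]; ring
      rw [h1, val_cons, mul_assoc]
      unfold cr
      ring
    · intro u b v huv hne
      have := hq (a :: u) b v (by rw [huv]; rfl)
      rw [val_cons, ← mul_assoc] at this
      exact this hne

/-! ### Positions -/

/-- The chosen representative of the coset `C x`. -/
noncomputable def rep (C : Subgroup G) (x : G) : G :=
  Quotient.out (Quotient.mk (QuotientGroup.rightRel C) x)

/-- The position of `x`: the element `c` of `C` with `x = c * rep x`. -/
noncomputable def posn (C : Subgroup G) (x : G) : G := x * (rep C x)⁻¹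

theorem posn_mul_rep (x : G) : posn C x * rep C x = x := by
  unfold posn; group

theorem posn_mem (x : G) : posn C x ∈ C := by
  have h : (QuotientGroup.rightRel C) (rep C x) x :=
    Quotient.exact (Quotient.out_eq (Quotient.mk (QuotientGroup.rightRel C) x))
  rw [QuotientGroup.rightRel_apply] at h
  exact h

theorem rep_mul {c : G} (hc : c ∈ C) (x : G) : rep C (c * x) = rep C x := by
  unfold rep
  congr 1
  apply Quotient.sound
  change (QuotientGroup.rightRel C) (c * x) x
  rw [QuotientGroup.rightRel_apply]
  have : x * (c * x)⁻¹ = c⁻¹ := by group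
  rw [this]
  exact C.inv_mem hc

theorem posn_mul {c : G} (hc : c ∈ C) (x : G) : posn C (c * x) = c * posn C x := by
  unfold posn
  rw [rep_mul hc, mul_assoc]

/-! ### Consequences of the wall axioms -/

theorem IsWall.comm_zpow (hW : IsWall C y H) {c : G} (hc : c ∈ C) (l : ℤ) :
    y ^ l * c = c * y ^ l := by
  have h : Commute y c := hW.comm c hc
  exact (h.zpow_left l).eq

theorem IsWall.pow_notMem (hW : IsWall C y H) {k : ℕ} (hk : 0 < k) : y ^ k ∉ C := by
  intro hmem
  obtain ⟨K1, hK1⟩ := hW.pos
  obtain ⟨K2, hK2⟩ := hW.neg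
  have h1 : ∀ j : ℕ, (y ^ k) ^ j ∈ C := fun j => C.pow_mem hmem j
  have h2 : (1 : G) ∈ H := by
    have := (hW.inv _ (h1 K1) 1).1
    rw [mul_one, ← pow_mul] at this
    exact this (hK1 _ (Nat.le_mul_of_pos_left _ hk))
  have h3 : ((y ^ k) ^ K2)⁻¹ ∈ H := by
    have := (hW.inv _ (C.inv_mem (h1 K2)) 1).2 h2
    rw [mul_one] at this
    exact this
  rw [← pow_mul] at h3
  exact hK2 _ (Nat.le_mul_of_pos_left _ hk) h3

theorem IsWall.zpow_mem (hW : IsWall C y H) {l : ℤ} (hl : y ^ l ∈ C) : l = 0 := by
  by_contra hne
  rcases lt_or_gt_of_ne hne with h | h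
  · have h1 : y ^ (-l) ∈ C := by rw [zpow_neg]; exact C.inv_mem hl
    obtain ⟨k, hk⟩ : ∃ k : ℕ, -l = k := ⟨(-l).toNat, by omega⟩
    rw [hk, zpow_natCast] at h1
    exact hW.pow_notMem (by omega) h1
  · obtain ⟨k, hk⟩ : ∃ k : ℕ, l = k := ⟨l.toNat, by omega⟩
    rw [hk, zpow_natCast] at hl
    exact hW.pow_notMem (by omega) hl

theorem IsWall.rep_inj (hW : IsWall C y H) (x : G) :
    Function.Injective (fun l : ℤ => rep C (y ^ l * x)) := by
  intro l l' h
  have h1 := posn_mul_rep (C := C) (y ^ l * x)
  have h2 := posn_mul_rep (C := C) (y ^ l' * x)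
  simp only at h
  rw [h] at h1
  have h3 : y ^ (l - l') ∈ C := by
    have : y ^ (l - l') = posn C (y ^ l * x) * (posn C (y ^ l' * x))⁻¹ := by
      rw [zpow_sub]
      have h4 : y ^ l = posn C (y ^ l * x) * rep C (y ^ l' * x) * x⁻¹ := by rw [h1]; group
      have h5 : y ^ l' = posn C (y ^ l' * x) * rep C (y ^ l' * x) * x⁻¹ := by rw [h2]; group
      calc y ^ l * (y ^ l')⁻¹ = (posn C (y ^ l * x) * rep C (y ^ l' * x) * x⁻¹) *
            (posn C (y ^ l' * x) * rep C (y ^ l' * x) * x⁻¹)⁻¹ := by rw [← h4, ← h5]
        _ = _ := by group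
    rw [this]
    exact C.mul_mem (posn_mem _) (C.inv_mem (posn_mem _))
  have := hW.zpow_mem h3
  omega

/-- The representatives at which a step along a generator can cross `H`. -/
theorem IsWall.exists_reps [Finite A] (hW : IsWall C y H) (π : A → G) :
    ∃ B : Set G, B.Finite ∧ ∀ (g : G) (a : A), cr H g (π a) ≠ 0 → rep C g ∈ B := by
  choose F hF1 hF2 using fun a : A => hW.fin (π a)
  refine ⟨⋃ a, rep C '' F a, Set.finite_iUnion (fun a => (hF1 a).image _), ?_⟩
  intro g a hg
  have h1 := cr_ne hg
  rcases hF2 a g with h2 | ⟨c, hc, f, hf, rfl⟩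
  · exact absurd h2 h1
  · rw [rep_mul hc]
    exact Set.mem_iUnion.2 ⟨a, f, hf, rfl⟩

theorem cr_mul (hW : IsWall C y H) {c : G} (hc : c ∈ C) (g s : G) :
    cr H (c * g) s = cr H g s := by
  unfold cr
  rw [mul_assoc, ind_congr (hW.inv c hc (g * s)), ind_congr (hW.inv c hc g)]

theorem wcr_support_finite [Finite A] (hW : IsWall C y H) (π : A → G) (q : G → ℤ) (x : G)
    (w : List A) : (Function.support (fun l : ℤ => wcr π H q (y ^ l * x) w)).Finite := by
  obtain ⟨B, hB1, hB2⟩ := hW.exists_reps π
  induction w generalizing x with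
  | nil => simp [wcr_nil]
  | cons a w ih =>
    have h1 : (Function.support (fun l : ℤ => cr H (y ^ l * x) (π a) * q (y ^ l * x))).Finite := by
      refine (hB1.preimage (hW.rep_inj x).injOn).subset ?_
      intro l hl
      rw [Function.mem_support] at hl
      exact hB2 _ _ (left_ne_zero_of_mul hl)
    refine (h1.union (ih (x * π a))).subset ?_
    intro l hl
    rw [Function.mem_support, wcr_cons] at hl
    by_contra hcon
    rw [Set.mem_union, not_or, Function.notMem_support, Function.notMem_support] at hcon
    apply hl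
    rw [hcon.1, mul_assoc, hcon.2, add_zero]

/-- The total weighted crossing number with all walls `y^l H`. -/
noncomputable def tot (π : A → G) (H : Set G) (y : G) (q : G → ℤ) (x : G) (w : List A) : ℤ :=
  ∑ᶠ l : ℤ, wcr π H q (y ^ l * x) w

theorem tot_append [Finite A] (hW : IsWall C y H) (π : A → G) (q : G → ℤ) (x : G)
    (u v : List A) :
    tot π H y q x (u ++ v) = tot π H y q x u + tot π H y q (x * val π u) v := by
  unfold tot
  rw [← finsum_add_distrib (wcr_support_finite hW π q x u)
    (wcr_support_finite hW π q (x * val π u) v)]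
  apply finsum_congr
  intro l
  rw [wcr_append, mul_assoc]

theorem tot_shift (π : A → G) (q : G → ℤ) (x : G) (k : ℤ) (w : List A) :
    tot π H y q (y ^ k * x) w = tot π H y q x w := by
  unfold tot
  have h := finsum_comp_equiv (Equiv.addRight k) (f := fun l : ℤ => wcr π H q (y ^ l * x) w)
  rw [← h]
  apply finsum_congr
  intro l
  rw [Equiv.coe_addRight, zpow_add, mul_assoc]

/-- A telescoping sum. -/
theorem finsum_step (f : ℤ → ℤ) (K : ℤ) (h1 : ∀ l, K ≤ l → f l = 1) (h0 : ∀ l, l ≤ -K → f l = 0) :
    ∑ᶠ l : ℤ, (f (l + 1) - f l) = 1 := by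
  classical
  set s : ℤ → ℤ := fun l => if 0 ≤ l then 1 else 0 with hs
  set g : ℤ → ℤ := fun l => f l - s l with hg
  have hgfin : (Function.support g).Finite := by
    refine (Set.finite_Ioo (-(|K| + 1)) (|K| + 1)).subset ?_
    intro l hl
    rw [Function.mem_support] at hl
    rw [Set.mem_Ioo]
    by_contra hcon
    apply hl
    rw [hg, hs]
    simp only
    rcases lt_or_ge l 0 with h | h
    · have h2 : l ≤ -K := by
        have := le_abs_self K
        by_contra h3
        exact hcon ⟨by omega, by have := abs_nonneg K; omega⟩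
      rw [h0 l h2, if_neg (by omega)]; rfl
    · have h2 : K ≤ l := by
        have := le_abs_self K
        by_contra h3
        exact hcon ⟨by have := abs_nonneg K; omega, by omega⟩
      rw [h1 l h2, if_pos h]; rfl
  have hgfin' : (Function.support (fun l => g (l + 1))).Finite := by
    have : Function.support (fun l => g (l + 1)) = (fun l : ℤ => l + 1) ⁻¹' Function.support g := rfl
    rw [this]
    exact hgfin.preimage (fun a _ b _ h => by simpa using h)
  have hshift : ∑ᶠ l : ℤ, g (l + 1) = ∑ᶠ l : ℤ, g l := by
    have h := finsum_comp_equiv (Equiv.addRight (1 : ℤ)) (f := g)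
    rw [← h]
    rfl
  have hsingle : ∑ᶠ l : ℤ, (s (l + 1) - s l) = 1 := by
    rw [finsum_eq_single _ (-1)]
    · rw [hs]; simp
    · intro l hl
      rw [hs]
      simp only
      rcases lt_or_gt_of_ne hl with h | h
      · rw [if_neg (by omega), if_neg (by omega)]; rfl
      · rw [if_pos (by omega), if_pos (by omega)]; rfl
  have hsfin : (Function.support (fun l : ℤ => s (l + 1) - s l)).Finite := by
    refine (Set.finite_singleton (-1 : ℤ)).subset ?_
    intro l hl
    rw [Function.mem_support] at hl
    rw [Set.mem_singleton_iff]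
    by_contra h3
    apply hl
    rw [hs]
    simp only
    rcases lt_or_gt_of_ne h3 with h | h
    · rw [if_neg (by omega), if_neg (by omega)]; rfl
    · rw [if_pos (by omega), if_pos (by omega)]; rfl
  have hdecomp : ∀ l, f (l + 1) - f l = (g (l + 1) - g l) + (s (l + 1) - s l) := by
    intro l
    rw [hg]
    simp only
    ring
  have hgd : (Function.support (fun l : ℤ => g (l + 1) - g l)).Finite := by
    refine (hgfin'.union hgfin).subset ?_
    intro l hl
    rw [Function.mem_support] at hl
    by_contra hcon
    rw [Set.mem_union, not_or, Function.notMem_support, Function.notMem_support] at hcon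
    apply hl
    rw [hcon.1, hcon.2, sub_zero]
  rw [finsum_congr hdecomp, finsum_add_distrib hgd hsfin, hsingle,
    finsum_sub_distrib hgfin' hgfin, hshift, sub_self, zero_add]

end Pool.Agent.SLX
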