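import Mathlib
import Pool.Agent.SLX.Cocycle
/-!
# Distance to a subgroup, thresholds, and splitting of paths
-/
namespace Pool.Agent.SLX
open Relation

variable {A G : Type} [LinearOrder A] [Group G] {π : A → G} {E : Set (List A × List A)}
  {C D : Subgroup G}

/-- Distance of `g` to `D`. -/
noncomputable def nuD (π : A → G) (D : Subgroup G) (g : G) : ℕ :=
  sInf {n | ∃ d ∈ D, len π (d * g) = n}

theorem exists_nuD (π : A → G) (D : Subgroup G) (g : G) :
    ∃ d ∈ D, len π (d * g) = nuD π D g := by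
  have hne : {n | ∃ d ∈ D, len π (d * g) = n}.Nonempty := ⟨_, 1, D.one_mem, rfl⟩
  exact Nat.sInf_mem hne

theorem nuD_le (π : A → G) {d : G} (hd : d ∈ D) (g : G) : nuD π D g ≤ len π (d * g) :=
  Nat.sInf_le ⟨d, hd, rfl⟩

theorem nuD_le_len (π : A → G) (g : G) : nuD π D g ≤ len π g := by
  have := nuD_le π D.one_mem g
  rwa [one_mul] at this

theorem nuD_mul_right (hE : IsSystem π E) (g s : G) :
    nuD π D (g * s) ≤ nuD π D g + len π s := by
  obtain ⟨d, hd, h1⟩ := exists_nuD π D g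
  have h2 := nuD_le π hd (g * s)
  have h3 := hE.len_mul_le (d * g) s
  rw [mul_assoc] at h3
  omega

theorem nuD_mul_left {d : G} (hd : d ∈ D) (g : G) : nuD π D (d * g) = nuD π D g := by
  apply le_antisymm
  · obtain ⟨e, he, h1⟩ := exists_nuD π D g
    have h2 := nuD_le π (D.mul_mem he (D.inv_mem hd)) (d * g)
    rw [mul_assoc, inv_mul_cancel_left] at h2
    omega
  · obtain ⟨e, he, h1⟩ := exists_nuD π D (d * g)
    have h2 := nuD_le π (D.mul_mem he hd) g
    rw [mul_assoc] at h2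
    omega

theorem nuD_ball_finite [Finite A] (hE : IsSystem π E) (hdisj : ∀ x, x ∈ C → x ∈ D → x = 1)
    (n : ℕ) : {c | c ∈ C ∧ nuD π D c ≤ n}.Finite := by
  choose L hL1 hL2 using exists_nuD π D
  refine Set.Finite.of_finite_image (f := fun c => L c * c)
    ((hE.ball_finite n).subset ?_) ?_
  · rintro _ ⟨c, hc, rfl⟩
    rw [Set.mem_ofPred_eq] at hc ⊢
    rw [hL2 c]
    exact hc.2
  · rintro c ⟨hc, _⟩ c' ⟨hc', _⟩ heq
    simp only at heq
    have h1 : (L c')⁻¹ * L c = c' * c⁻¹ := by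
      have h2 : L c = L c' * (c' * c⁻¹) := by rw [← mul_assoc, ← heq]; group
      rw [h2, inv_mul_cancel_left]
    have h3 := hdisj (c' * c⁻¹) (C.mul_mem hc' (C.inv_mem hc))
      (by rw [← h1]; exact D.mul_mem (D.inv_mem (hL1 c')) (hL1 c))
    rw [mul_inv_eq_one] at h3
    exact h3.symm

/-- The threshold weight. -/
noncomputable def rwt (π : A → G) (D : Subgroup G) (r : ℕ) (g : G) : ℤ := by
  classical
  exact if nuD π D g ≤ r then 1 else 0

theorem rwt_of_le {r : ℕ} {g : G} (h : nuD π D g ≤ r) : rwt π D r g = 1 := by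
  unfold rwt
  rw [if_pos h]

theorem rwt_of_lt {r : ℕ} {g : G} (h : r < nuD π D g) : rwt π D r g = 0 := by
  unfold rwt
  rw [if_neg (by omega)]

/-- A point of a path for `d' c` which lies near `C D` splits `c`. -/
theorem split_point (hE : IsSystem π E) (hcomm : ∀ c ∈ C, ∀ d ∈ D, c * d = d * c)
    {c x x' c₁ d₁ f d' : G} {K : ℕ} (hc₁ : c₁ ∈ C) (hd₁ : d₁ ∈ D) (hd' : d' ∈ D)
    (hx : x = c₁ * d₁ * f) (hx' : x * x' = d' * c) (hf : len π f + len π f⁻¹ ≤ K) :
    nuD π D c₁ ≤ len π x + K ∧ nuD π D (c₁⁻¹ * c) ≤ K + len π x' ∧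
      nuD π D c₁ ≤ nuD π D x + K ∧ nuD π D x ≤ nuD π D c₁ + K := by
  have e1 : d₁ * c₁ = x * f⁻¹ := by
    rw [hx, hcomm c₁ hc₁ d₁ hd₁]; group
  refine ⟨?_, ?_, ?_, ?_⟩
  · have h1 := nuD_le π hd₁ c₁
    rw [e1] at h1
    have h2 := hE.len_mul_le x f⁻¹
    omega
  · have hD : d₁⁻¹ * d' ∈ D := D.mul_mem (D.inv_mem hd₁) hd'
    have h1 := nuD_le π hD (c₁⁻¹ * c)
    have h2 : d₁⁻¹ * d' * (c₁⁻¹ * c) = f * x' := by
      have e2 : d₁⁻¹ * d' * c₁⁻¹ = c₁⁻¹ * (d₁⁻¹ * d') := (hcomm _ (C.inv_mem hc₁) _ hD).symm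
      have e3 : x' = x⁻¹ * (d' * c) := by rw [← hx']; group
      calc d₁⁻¹ * d' * (c₁⁻¹ * c) = d₁⁻¹ * d' * c₁⁻¹ * c := by group
        _ = c₁⁻¹ * d₁⁻¹ * (d' * c) := by rw [e2]; group
        _ = (d₁ * c₁)⁻¹ * (d' * c) := by group
        _ = f * x' := by rw [e1, e3]; group
    rw [h2] at h1
    have h3 := hE.len_mul_le f x'
    omega
  · have h1 := nuD_mul_right (D := D) hE x f⁻¹
    rw [← e1, nuD_mul_left hd₁] at h1
    omega
  · have h1 := nuD_mul_right (D := D) hE (d₁ * c₁) f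
    rw [nuD_mul_left hd₁, e1, inv_mul_cancel_right] at h1
    omega

/-- The part of a path after the last low step. -/
theorem exists_last (π : A → G) (low : G → A → Prop) (g : List A) : ∃ g₁ g₂ : List A,
    g = g₁ ++ g₂ ∧ (g₁ = [] ∨ ∃ u a, g₁ = u ++ [a] ∧ low (val π u) a) ∧
      ∀ u a v, g₂ = u ++ a :: v → ¬ low (val π g₁ * val π u) a := by
  classical
  induction g using List.reverseRecOn with
  | nil => exact ⟨[], [], rfl, Or.inl rfl, by simp⟩
  | append_singleton g a ih =>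
    by_cases h : low (val π g) a
    · exact ⟨g ++ [a], [], by simp, Or.inr ⟨g, a, rfl, h⟩, by simp⟩
    · obtain ⟨g₁, g₂, rfl, h1, h2⟩ := ih
      refine ⟨g₁, g₂ ++ [a], by simp, h1, ?_⟩
      intro u b v huv
      rcases List.eq_nil_or_concat' v with rfl | ⟨v, b', rfl⟩
      · obtain ⟨rfl, hb⟩ := List.append_inj' huv rfl
        simp only [List.cons.injEq, and_true] at hb
        rw [← hb, ← val_append]
        exact h
      · have h3 : g₂ ++ [a] = (u ++ b :: v) ++ [b'] := by rw [huv]; simp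
        obtain ⟨h4, _⟩ := List.append_inj' h3 rfl
        exact h2 u b v h4

/-- The part of a path before the first high step. -/
theorem exists_first (π : A → G) (hi : G → A → Prop) (g : List A) (x : G) : ∃ g' g'' : List A,
    g = g' ++ g'' ∧ (∀ u a v, g' = u ++ a :: v → ¬ hi (x * val π u) a) ∧
      (g'' = [] ∨ ∃ a v, g'' = a :: v ∧ hi (x * val π g') a) := by
  classical
  induction g generalizing x with
  | nil => exact ⟨[], [], rfl, by simp, Or.inl rfl⟩
  | cons a g ih =>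
    by_cases h : hi x a
    · exact ⟨[], a :: g, rfl, by simp, Or.inr ⟨a, g, rfl, by rw [val_nil, mul_one]; exact h⟩⟩
    · obtain ⟨g', g'', rfl, h1, h2⟩ := ih (x * π a)
      refine ⟨a :: g', g'', rfl, ?_, ?_⟩
      · intro u b v huv
        cases u with
        | nil =>
          simp only [List.nil_append, List.cons.injEq] at huv
          rw [← huv.1, val_nil, mul_one]
          exact h
        | cons b' u =>
          simp only [List.cons_append, List.cons.injEq] at huv
          rw [← huv.1, val_cons, ← mul_assoc]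
          exact h1 u b v huv.2
      · rw [val_cons, ← mul_assoc]
        exact h2

end Pool.Agent.SLX
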