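import Mathlib
import Pool.Agent.SLX.Defs
/-!
# Almost locally constant trivializations (definition)
-/
namespace Pool.Agent.SLX

/-- `C` and `D` are commuting subgroups of `G` with trivial intersection, `D` is not trivial, and
`h : G → D` satisfies `h (c d x) = d h x` for `c` in `C` and `d` in `D`, and is almost locally
constant: for every `s` in `G` the elements `x` with `h (x s) ≠ h x` lie in finitely many cosets
`C D f`. -/
structure IsTriv {G : Type} [Group G] (C D : Subgroup G) (h : G → D) : Prop where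
  comm : ∀ c ∈ C, ∀ d ∈ D, c * d = d * c
  disj : ∀ x, x ∈ C → x ∈ D → x = 1
  ne : ∃ y ∈ D, y ≠ 1
  inv : ∀ c ∈ C, ∀ d : D, ∀ x, h (c * d * x) = d * h x
  fin : ∀ s : G, ∃ F : Set G, F.Finite ∧
    ∀ x, h (x * s) = h x ∨ ∃ c ∈ C, ∃ d ∈ D, ∃ f ∈ F, x = c * d * f

end Pool.Agent.SLX
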