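import Mathlib
import Pool.Agent.SLX.NuD
import Pool.Agent.SLX.TrivDefs
/-!
# The theorem on almost locally constant trivializations
-/
namespace Pool.Agent.SLX
open Relation

variable {A G : Type} [LinearOrder A] [Group G] {π : A → G} {E : Set (List A × List A)}
  {C D : Subgroup G} {h : G → D}

theorem IsTriv.left (hT : IsTriv C D h) {d : G} (hd : d ∈ D) (x : G) :
    h (d * x) = ⟨d, hd⟩ * h x := by
  have := hT.inv 1 C.one_mem ⟨d, hd⟩ x
  rw [one_mul] at this
  exact this

theorem IsTriv.left_iff (hT : IsTriv C D h) {d : G} (hd : d ∈ D) (x s : G) :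
    h (d * x * s) = h (d * x) ↔ h (x * s) = h x := by
  rw [mul_assoc, hT.left hd, hT.left hd]
  exact mul_right_inj _

theorem cr_ne_h {j : D} {x s : G} (h1 : cr {x | h x = j} x s ≠ 0) : h (x * s) ≠ h x := by
  intro h2
  apply cr_ne h1
  rw [Set.mem_ofPred_eq, Set.mem_ofPred_eq, h2]

theorem h_const {x : G} {w : List A}
    (hw : ∀ u a v, w = u ++ a :: v → ¬ h (x * val π u * π a) ≠ h (x * val π u)) :
    h (x * val π w) = h x := by
  induction w using List.reverseRecOn with
  | nil => rw [val_nil, mul_one]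
  | append_singleton w a ih =>
    have h1 := hw w a [] rfl
    rw [not_not] at h1
    rw [val_append, val_cons, val_nil, mul_one, ← mul_assoc, h1]
    apply ih
    intro u b v huv
    exact hw u b (v ++ [a]) (by rw [huv]; simp)

/-- The splitting lemma. -/
theorem triv_split [Finite A] (hE : IsSystem π E) (hT : IsTriv C D h) :
    ∃ K : ℕ, ∀ c ∈ C, K < nuD π D c → ∃ c₁ ∈ C, nuD π D c₁ ≤ K ∧
      nuD π D (c₁⁻¹ * c) < nuD π D c := by
  classical
  obtain ⟨y, hyD, hy1⟩ := hT.ne
  obtain ⟨R, hRb⟩ := hE.exists_bound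
  choose F hF1 hF2 using fun a : A => hT.fin (π a)
  have hB1 : ((⋃ a, F a) ∪ {1}).Finite := (Set.finite_iUnion hF1).union (Set.finite_singleton 1)
  set B := (⋃ a, F a) ∪ {1} with hB
  choose W hW1 hW2 using fun g : G => hE.exists_len g
  have hWfin : {w : List A | w.length ≤ R}.Finite := List.finite_length_le A R
  obtain ⟨K3, hK3⟩ := (hWfin.image (fun u => len π (val π u)⁻¹)).bddAbove
  obtain ⟨K4, hK4⟩ := (hB1.image (fun f => len π f + len π f⁻¹)).bddAbove
  set r₁ := 3 * K4 with hr₁
  have hWfin1 : {w : List A | w.length ≤ r₁ + 1}.Finite := List.finite_length_le A (r₁ + 1)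
  obtain ⟨K5, hK5⟩ := ((hWfin1.prod hB1).image (fun x : List A × G =>
    (W (x.2⁻¹ * ((h (val π x.1) * (h x.2)⁻¹ : D) : G)⁻¹ * y⁻¹ *
      ((h (val π x.1) * (h x.2)⁻¹ : D) : G) * x.2)).length)).bddAbove
  have hWfin2 : {w : List A | w.length ≤ K5}.Finite := List.finite_length_le A K5
  obtain ⟨K6, hK6⟩ := (hWfin2.image (fun u => len π (val π u)⁻¹)).bddAbove
  set Y := W y with hY
  have hYv : val π Y = y := hW2 _
  set r₂ := r₁ + 3 * K4 + 2 * K3 + 2 * R + Y.length + K5 with hr₂
  set r₃ := r₂ + K6 with hr₃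
  refine ⟨r₃ + K4, ?_⟩
  intro c hc hcK
  obtain ⟨d₀, hd₀, hk⟩ := exists_nuD π D c
  set g := W (d₀ * c) with hg
  have hg1 : g.length = nuD π D c := by rw [hg, hW1, hk]
  have hg2 : val π g = d₀ * c := hW2 _
  by_cases hcase : ∃ u a v, g = u ++ a :: v ∧ h (val π u * π a) ≠ h (val π u) ∧
      r₁ < nuD π D (val π u) ∧ nuD π D (val π u) ≤ r₃
  · obtain ⟨u, a, v, huv, hcr, hlo, hhi⟩ := hcase
    obtain ⟨c₁, hc₁, d₁, hd₁, f, hf, hx⟩ : ∃ c₁ ∈ C, ∃ d₁ ∈ D, ∃ f ∈ B,
        val π u = c₁ * d₁ * f := by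
      rcases hF2 a (val π u) with h2 | ⟨c₁, hc₁, d₁, hd₁, f, hf, hx⟩
      · exact absurd h2 hcr
      · exact ⟨c₁, hc₁, d₁, hd₁, f, Or.inl (Set.mem_iUnion.2 ⟨a, hf⟩), hx⟩
    have hfl : len π f + len π f⁻¹ ≤ K4 := hK4 ⟨f, hf, rfl⟩
    obtain ⟨b1, b2, b3, b4⟩ := split_point hE hT.comm hc₁ hd₁ hd₀ hx
      (x' := val π (a :: v)) (c := c) (by rw [← val_append, ← huv, hg2]) hfl
    have h1 : len π (val π u) ≤ u.length := len_val_le u
    have h2 : len π (val π (a :: v)) ≤ (a :: v).length := len_val_le _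
    have h3 : u.length + (a :: v).length = nuD π D c := by
      rw [← List.length_append, ← huv, hg1]
    exact ⟨c₁, hc₁, by omega, by omega⟩
  -- there is no crossing in the zone
  obtain ⟨g₁, g₂, hg12, hlast, hnolow⟩ := exists_last π
    (fun x a => h (x * π a) ≠ h x ∧ nuD π D x ≤ r₁) g
  obtain ⟨δ, hδ, g₁', hl1, hl2, hv1, hlow⟩ : ∃ δ ∈ D, ∃ g₁' : List A,
      g₁'.length ≤ g₁.length ∧ g₁'.length ≤ r₁ + 1 ∧ val π g₁' = δ * val π g₁ ∧
      ∀ u a v, g₁' = u ++ a :: v → nuD π D (val π u) ≤ r₁ := by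
    rcases hlast with rfl | ⟨u, a, rfl, _, hu⟩
    · exact ⟨1, D.one_mem, [], le_rfl, by simp, by rw [one_mul], by simp⟩
    · obtain ⟨δ, hδ, hlen⟩ := exists_nuD π D (val π u)
      have e1 : (W (δ * val π u)).length = nuD π D (val π u) := by rw [hW1, hlen]
      have e2 : val π (W (δ * val π u)) = δ * val π u := hW2 _
      have e3 : nuD π D (val π u) ≤ u.length := (nuD_le_len π _).trans (len_val_le u)
      refine ⟨δ, hδ, W (δ * val π u) ++ [a], ?_, ?_, ?_, ?_⟩
      · simp only [List.length_append, List.length_singleton]; omega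
      · simp only [List.length_append, List.length_singleton]; omega
      · rw [val_append, val_append, e2, mul_assoc]
      · intro u' b v huv
        rcases List.eq_nil_or_concat' v with rfl | ⟨v, b', rfl⟩
        · obtain ⟨h3, _⟩ := List.append_inj' huv rfl
          rw [← h3, e2, nuD_mul_left hδ]
          exact hu
        · have h3 : W (δ * val π u) ++ [a] = (u' ++ b :: v) ++ [b'] := by rw [huv]; simp
          obtain ⟨h4, _⟩ := List.append_inj' h3 rfl
          have h5 : u'.length ≤ (W (δ * val π u)).length := by rw [h4]; simp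
          have h6 : nuD π D (val π u') ≤ u'.length := (nuD_le_len π _).trans (len_val_le u')
          omega
  have hhigh : ∀ u a v, g₂ = u ++ a :: v →
      h (val π g₁' * val π u * π a) ≠ h (val π g₁' * val π u) →
      r₃ < nuD π D (val π g₁' * val π u) := by
    intro u a v huv hcr
    rw [hv1, mul_assoc δ, ne_eq, hT.left_iff hδ, ← ne_eq, ← val_append] at hcr
    rw [hv1, mul_assoc δ, nuD_mul_left hδ, ← val_append]
    have h1 := hnolow u a v huv
    rw [← val_append] at h1
    have h2 : r₁ < nuD π D (val π (g₁ ++ u)) := by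
      by_contra h3
      exact h1 ⟨hcr, by omega⟩
    by_contra h3
    exact hcase ⟨g₁ ++ u, a, v, by rw [hg12, huv]; simp, hcr, h2, by omega⟩
  obtain ⟨g₂', g₂'', hg22, hnocr, hnext⟩ := exists_first π
    (fun x a => h (x * π a) ≠ h x) g₂ (val π g₁')
  have hp'h : h (val π g₁' * val π g₂') = h (val π g₁') := h_const hnocr
  have hend : val π g₁' * val π g₂' * val π g₂'' = δ * d₀ * c := by
    rw [hv1, mul_assoc, ← val_append, ← hg22, mul_assoc, ← val_append, ← hg12, hg2]
    group
  obtain ⟨c₂, hc₂, d₂, hd₂, f₂, hf₂, hp'⟩ : ∃ c₂ ∈ C, ∃ d₂ ∈ D, ∃ f₂ ∈ B,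
      val π g₁' * val π g₂' = c₂ * d₂ * f₂ := by
    rcases hnext with rfl | ⟨a, v, rfl, hcr⟩
    · rw [val_nil, mul_one] at hend
      refine ⟨c, hc, δ * d₀, D.mul_mem hδ hd₀, 1, Or.inr rfl, ?_⟩
      rw [hend, mul_one, hT.comm c hc _ (D.mul_mem hδ hd₀)]
    · rcases hF2 a (val π g₁' * val π g₂') with h2 | ⟨c₁, hc₁, d₁, hd₁, f, hf, hx⟩
      · exact absurd h2 hcr
      · exact ⟨c₁, hc₁, d₁, hd₁, f, Or.inl (Set.mem_iUnion.2 ⟨a, hf⟩), hx⟩
  have hp'ν : r₃ < nuD π D (val π g₁' * val π g₂') := by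
    rcases hnext with rfl | ⟨a, v, rfl, hcr⟩
    · rw [val_nil, mul_one] at hend
      rw [hend, nuD_mul_left (D.mul_mem hδ hd₀)]
      omega
    · exact hhigh g₂' a v hg22 hcr
  have hd₂' : ((h (val π g₁') * (h f₂)⁻¹ : D) : G) = d₂ := by
    have h1 := hT.inv c₂ hc₂ ⟨d₂, hd₂⟩ f₂
    rw [← hp', hp'h] at h1
    rw [h1, mul_inv_cancel_right]
  set V := W (f₂⁻¹ * d₂⁻¹ * y⁻¹ * d₂ * f₂) with hV
  have hVl : V.length ≤ K5 := by
    rw [hV, ← hd₂']
    exact hK5 ⟨(g₁', f₂), ⟨hl2, hf₂⟩, rfl⟩
  have hVv : val π g₁' * val π g₂' * val π V = y⁻¹ * (val π g₁' * val π g₂') := by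
    rw [hV, hW2, hp']
    have e1 : y⁻¹ * c₂ = c₂ * y⁻¹ := (hT.comm c₂ hc₂ _ (D.inv_mem hyD)).symm
    calc c₂ * d₂ * f₂ * (f₂⁻¹ * d₂⁻¹ * y⁻¹ * d₂ * f₂) = (c₂ * y⁻¹) * d₂ * f₂ := by group
      _ = _ := by rw [← e1]; group
  set j := h (val π g₁') with hj
  set q₂ := rwt π D r₂ with hq₂
  have hPhi : wcr π {x | h x = j} q₂ 1 (g₁' ++ (g₂' ++ g₂'')) =
      ind {x | h x = j} (val π g₁') - ind {x | h x = j} 1 := by
    rw [wcr_append, wcr_const _ 1 1 g₁', wcr_const _ 0 _ (g₂' ++ g₂''), one_mul, one_mul, zero_mul,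
      add_zero]
    · intro u a v huv hne
      rw [← hg22] at huv
      rw [one_mul] at hne ⊢
      have h1 := hhigh u a v huv (cr_ne_h hne)
      exact rwt_of_lt (by omega)
    · intro u a v huv _
      rw [one_mul]
      have h1 := hlow u a v huv
      exact rwt_of_le (by omega)
  have hQhi : wcr π {x | h x = j} q₂ 1 (Y ++ (g₁' ++ (g₂' ++ (V ++ g₂'')))) =
      ind {x | h x = j} (y * val π g₁') - ind {x | h x = j} 1 := by
    rw [wcr_append, wcr_append, wcr_append, wcr_append, one_mul, hYv,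
      wcr_const _ 1 1 Y, wcr_const _ 1 y g₁', wcr_const _ 0 _ g₂', wcr_const _ 0 _ V,
      wcr_const _ 0 _ g₂'', hYv, one_mul, one_mul, one_mul]
    · ring
    · intro u a v huv hne
      have e1 : y * val π g₁' * val π g₂' * val π V = val π g₁' * val π g₂' := by
        rw [mul_assoc y, mul_assoc y, hVv, mul_inv_cancel_left]
      rw [e1] at hne ⊢
      have h1 := hhigh (g₂' ++ u) a v (by rw [hg22, huv]; simp)
      rw [val_append, ← mul_assoc] at h1
      have h2 := h1 (cr_ne_h hne)
      exact rwt_of_lt (by omega)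
    · intro u a v huv _
      apply rwt_of_lt
      have h0 : nuD π D (y * val π g₁' * val π g₂') = nuD π D (val π g₁' * val π g₂') := by
        rw [mul_assoc y, nuD_mul_left hyD]
      have h1 := nuD_mul_right (D := D) hE (y * val π g₁' * val π g₂' * val π u) (val π u)⁻¹
      rw [mul_inv_cancel_right, h0] at h1
      have h3 : u.length ≤ V.length := by rw [huv]; simp
      have h2 : len π (val π u)⁻¹ ≤ K6 := hK6 ⟨u, h3.trans hVl, rfl⟩
      omega
    · intro u a v huv hne
      have h1 := cr_ne_h hne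
      rw [mul_assoc y, ne_eq, hT.left_iff hyD] at h1
      exact absurd h1 (hnocr u a v huv)
    · intro u a v huv _
      rw [hq₂]
      apply rwt_of_le
      rw [nuD_mul_left hyD]
      have h1 := hlow u a v huv
      omega
    · intro u a v huv _
      apply rwt_of_le
      rw [one_mul]
      have h1 := nuD_le_len (D := D) π (val π u)
      have h2 : len π (val π u) ≤ u.length := len_val_le u
      have h3 : u.length ≤ Y.length := by rw [huv]; simp
      omega
  have hne : wcr π {x | h x = j} q₂ 1 (Y ++ (g₁' ++ (g₂' ++ (V ++ g₂'')))) ≠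
      wcr π {x | h x = j} q₂ 1 (g₁' ++ (g₂' ++ g₂'')) := by
    rw [hPhi, hQhi]
    have h1 : ind {x | h x = j} (val π g₁') = 1 := by
      unfold ind
      rw [if_pos]
      exact hj.symm
    have h2 : ind {x | h x = j} (y * val π g₁') = 0 := by
      unfold ind
      rw [if_neg]
      rw [Set.mem_ofPred_eq, hT.left hyD, ← hj]
      intro h3
      apply hy1
      have h4 := mul_eq_right.1 h3
      exact congrArg Subtype.val h4
    rw [h1, h2]
    omega
  have hval : val π (Y ++ (g₁' ++ (g₂' ++ (V ++ g₂'')))) = val π (g₁' ++ (g₂' ++ g₂'')) := by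
    rw [val_append, val_append, val_append, val_append, val_append, val_append, hYv]
    have : val π g₁' * (val π g₂' * (val π V * val π g₂'')) =
        (val π g₁' * val π g₂' * val π V) * val π g₂'' := by group
    rw [this, hVv]
    group
  have hlenP : (g₁' ++ (g₂' ++ g₂'')).length ≤ Y.length + K5 + nuD π D c := by
    rw [List.length_append, ← hg22]
    have : g₁.length + g₂.length = nuD π D c := by rw [← List.length_append, ← hg12, hg1]
    omega
  have hlenQ : (Y ++ (g₁' ++ (g₂' ++ (V ++ g₂'')))).length ≤ Y.length + K5 + nuD π D c := by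
    have h1 : g₁.length + g₂.length = nuD π D c := by rw [← List.length_append, ← hg12, hg1]
    have h2 : g₂.length = g₂'.length + g₂''.length := by rw [hg22, List.length_append]
    simp only [List.length_append]
    omega
  obtain ⟨p, l, l', q, hrule, hlen, hne', hval'⟩ := hE.exists_move
    (fun w => wcr π {x | h x = j} q₂ 1 w) hlenQ hlenP hval hne
  have hll : val π l = val π l' := hE.val_rule hrule
  set g0 := val π p with hg0
  have hm : wcr π {x | h x = j} q₂ g0 l ≠ wcr π {x | h x = j} q₂ g0 l' := by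
    intro heq
    apply hne'
    rw [wcr_append, wcr_append, wcr_append, wcr_append, val_append, val_append,
      one_mul, one_mul, one_mul, heq, hll]
  obtain ⟨u1, a1, hu1, hc1, hq1⟩ : ∃ (u : List A) (a : A), u.length ≤ R ∧
      cr {x | h x = j} (g0 * val π u) (π a) ≠ 0 ∧ nuD π D (g0 * val π u) ≤ r₂ := by
    by_contra hcon
    push Not at hcon
    apply hm
    rw [wcr_const _ 0 g0 l, wcr_const _ 0 g0 l', zero_mul, zero_mul]
    · intro u a v huv hne
      refine rwt_of_lt (hcon u a ?_ hne)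
      have := (hRb l l' hrule).2
      rw [huv] at this
      simp at this
      omega
    · intro u a v huv hne
      refine rwt_of_lt (hcon u a ?_ hne)
      have := (hRb l l' hrule).1
      rw [huv] at this
      simp at this
      omega
  obtain ⟨u2, hu2, hq2⟩ : ∃ (u : List A), u.length ≤ R ∧ r₂ < nuD π D (g0 * val π u) := by
    by_contra hcon
    push Not at hcon
    apply hm
    rw [wcr_const _ 1 g0 l, wcr_const _ 1 g0 l', hll]
    · intro u a v huv hne
      refine rwt_of_le (hcon u ?_)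
      have := (hRb l l' hrule).2
      rw [huv] at this
      simp at this
      omega
    · intro u a v huv hne
      refine rwt_of_le (hcon u ?_)
      have := (hRb l l' hrule).1
      rw [huv] at this
      simp at this
      omega
  obtain ⟨c₁, hc₁, d₁, hd₁, f, hf, hx⟩ : ∃ c₁ ∈ C, ∃ d₁ ∈ D, ∃ f ∈ B,
      g0 * val π u1 = c₁ * d₁ * f := by
    rcases hF2 a1 (g0 * val π u1) with h2 | ⟨c₁, hc₁, d₁, hd₁, f, hf, hx⟩
    · exact absurd h2 (cr_ne_h hc1)
    · exact ⟨c₁, hc₁, d₁, hd₁, f, Or.inl (Set.mem_iUnion.2 ⟨a1, hf⟩), hx⟩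
  have hfl : len π f + len π f⁻¹ ≤ K4 := hK4 ⟨f, hf, rfl⟩
  have hu1' : len π (val π u1)⁻¹ ≤ K3 := hK3 ⟨u1, hu1, rfl⟩
  obtain ⟨b1, b2, b3, b4⟩ := split_point hE hT.comm hc₁ hd₁ (D.mul_mem hδ hd₀) hx
    (x' := (val π u1)⁻¹ * val π (l ++ q)) (c := c) (by
      rw [← hend]
      have h1 : val π (p ++ l ++ q) = val π g₁' * val π g₂' * val π g₂'' := by
        rw [hval', hval, val_append, val_append, mul_assoc]
      have h2 : val π g₁' * val π g₂' * val π g₂'' = g0 * val π (l ++ q) := by
        rw [← h1, List.append_assoc, val_append]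
      rw [h2]
      group) hfl
  have b5 : nuD π D (g0 * val π u2) ≤ nuD π D (g0 * val π u1) + K3 + R := by
    have h1 := nuD_mul_right (D := D) hE (g0 * val π u1) ((val π u1)⁻¹ * val π u2)
    have h2 : g0 * val π u1 * ((val π u1)⁻¹ * val π u2) = g0 * val π u2 := by group
    rw [h2] at h1
    have h3 := hE.len_mul_le (val π u1)⁻¹ (val π u2)
    have h4 : len π (val π u2) ≤ u2.length := len_val_le u2
    omega
  have b6 : len π (g0 * val π u1) ≤ p.length + R := by
    have h3 := hE.len_mul_le g0 (val π u1)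
    have h4 : len π g0 ≤ p.length := len_val_le p
    have h5 : len π (val π u1) ≤ u1.length := len_val_le u1
    omega
  have b7 : len π ((val π u1)⁻¹ * val π (l ++ q)) ≤ K3 + (l.length + q.length) := by
    have h4 := hE.len_mul_le (val π u1)⁻¹ (val π (l ++ q))
    have h5 : len π (val π (l ++ q)) ≤ (l ++ q).length := len_val_le _
    rw [List.length_append] at h5
    omega
  simp only [List.length_append] at hlen
  exact ⟨c₁, hc₁, by omega, by omega⟩

/-- Short expressions for the elements of `C`. -/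
theorem triv_short [Finite A] (hE : IsSystem π E) (hT : IsTriv C D h) :
    ∃ S : Set G, S.Finite ∧ S ⊆ C ∧ ∀ c ∈ C, IsShort S (len π c + 1) c := by
  obtain ⟨K, hK⟩ := triv_split hE hT
  refine ⟨{c | c ∈ C ∧ nuD π D c ≤ K}, nuD_ball_finite hE hT.disj _, fun c hc => hc.1, ?_⟩
  have key : ∀ (n : ℕ) (c : G), c ∈ C → nuD π D c ≤ n →
      IsShort {c | c ∈ C ∧ nuD π D c ≤ K} (n + 1) c := by
    intro n
    induction n using Nat.strong_induction_on with
    | _ n ih =>
      intro c hc hn
      rcases Nat.lt_or_ge K (nuD π D c) with h1 | h1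
      · obtain ⟨c1, hc1, h2, h3⟩ := hK c hc h1
        obtain ⟨v, hv1, hv2, hv3⟩ := ih (nuD π D (c1⁻¹ * c)) (by omega) (c1⁻¹ * c)
          (C.mul_mem (C.inv_mem hc1) hc) le_rfl
        refine ⟨c1 :: v, ?_, ?_, ?_⟩
        · intro x hx
          rcases List.mem_cons.1 hx with rfl | hx
          · exact ⟨hc1, h2⟩
          · exact hv1 x hx
        · rw [List.prod_cons, hv2, mul_inv_cancel_left]
        · rw [List.length_cons]; omega
      · exact ⟨[c], by simpa using ⟨hc, h1⟩, by simp, by simp⟩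
  intro c hc
  exact key (len π c) c hc (nuD_le_len π c)

/-- From short expressions to the definition of undistorted subgroups. -/
theorem undistorted_of_short' (hE : IsSystem π E) {S : Set G} (hS1 : S.Finite) (hS2 : S ⊆ C)
    (hS3 : ∀ c ∈ C, IsShort S (len π c + 1) c) : Undistorted C := by
  refine ⟨S, hS1, ?_, ?_⟩
  · apply le_antisymm
    · rw [Subgroup.closure_le]
      exact hS2
    · intro c hc
      obtain ⟨v, hv1, hv2, _⟩ := hS3 c hc
      rw [← hv2]
      exact Subgroup.list_prod_mem _ (fun x hx => Subgroup.subset_closure (hv1 x hx))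
  · intro X hX
    obtain ⟨L, hL⟩ := (hX.image (fun x => len π x)).bddAbove
    refine ⟨L + 1, ?_⟩
    intro n g hg hgC
    obtain ⟨v, hv1, hv2, hv3⟩ := hg
    have hlen : len π g ≤ L * n := by
      have key : ∀ v : List G, (∀ x ∈ v, x ∈ X) → len π v.prod ≤ L * v.length := by
        intro v
        induction v with
        | nil =>
          intro _
          have := len_val_le (π := π) []
          rw [val_nil] at this
          simpa using this
        | cons x v ih =>
          intro hv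
          have h1 := ih (fun z hz => hv z (List.mem_cons_of_mem _ hz))
          have h2 : len π x ≤ L := hL ⟨x, hv x List.mem_cons_self, rfl⟩
          have h3 := hE.len_mul_le x v.prod
          rw [List.prod_cons, List.length_cons, Nat.mul_succ]
          omega
      have h1 := key v hv1
      rw [hv2] at h1
      exact h1.trans (Nat.mul_le_mul_left L hv3)
    obtain ⟨u, hu1, hu2, hu3⟩ := hS3 g hgC
    refine ⟨u, hu1, hu2, hu3.trans ?_⟩
    rw [Nat.add_mul]
    omega

/-- The theorem on trivializations. -/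
theorem undistorted_of_triv {G : Type} [Group G] (hG : HasSystem G) {C D : Subgroup G}
    {h : G → D} (hT : IsTriv C D h) : Undistorted C := by
  obtain ⟨A, _, _, π, E, hE⟩ := hG
  obtain ⟨S, hS1, hS2, hS3⟩ := triv_short hE hT
  exact undistorted_of_short' hE hS1 hS2 hS3

end Pool.Agent.SLX
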