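import Mathlib
import Pool.Agent.SLX.Defs
/-!
# Walls in HNN extensions
-/
namespace Pool.Agent.SLX
open HNNExtension HNNExtension.NormalWord

variable {K : Type} [Group K] {P Q : Subgroup K} {φ : P ≃* Q}

/-- Elements whose reduced words start with `b t`, `b` in `Q`. -/
def startSet (φ : P ≃* Q) : Set (HNNExtension K P Q φ) :=
  {x | ∃ w : ReducedWord K P Q, w.prod φ = x ∧ w.toList.head?.map Prod.fst = some 1 ∧ w.head ∈ Q}

theorem mem_startSet_iff (w : ReducedWord K P Q) :
    w.prod φ ∈ startSet φ ↔ w.toList.head?.map Prod.fst = some 1 ∧ w.head ∈ Q := by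
  constructor
  · rintro ⟨w', h1, h2, h3⟩
    obtain ⟨h4, h5⟩ := ReducedWord.map_fst_eq_and_of_prod_eq φ h1
    refine ⟨?_, ?_⟩
    · rw [← List.head?_map, ← h4, List.head?_map]
      exact h2
    · have h6 := h5 1 (by rw [h2]; rfl)
      rw [toSubgroup_neg_one] at h6
      have : w.head = w'.head * (w'.head⁻¹ * w.head) := by group
      rw [this]
      exact Q.mul_mem h3 h6
  · intro h
    exact ⟨w, rfl, h⟩

theorem exists_reduced (x : HNNExtension K P Q φ) : ∃ w : ReducedWord K P Q, w.prod φ = x := by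
  obtain ⟨d⟩ := TransversalPair.nonempty K P Q
  refine ⟨(x • (empty : NormalWord d)).toReducedWord, ?_⟩
  have := NormalWord.prod_smul (φ := φ) x (empty : NormalWord d)
  rw [this]
  simp

theorem prod_append (g : K) (l l' : List (ℤˣ × K))
    (h : (l ++ l').IsChain (fun a b => a.2 ∈ toSubgroup P Q a.1 → a.1 = b.1)) :
    (⟨g, l ++ l', h⟩ : ReducedWord K P Q).prod φ =
      of g * (l.map (fun x => (t : HNNExtension K P Q φ) ^ (x.1 : ℤ) * of x.2)).prod *
        (l'.map (fun x => (t : HNNExtension K P Q φ) ^ (x.1 : ℤ) * of x.2)).prod := by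
  unfold ReducedWord.prod
  rw [List.map_append, List.prod_append, mul_assoc]

theorem prod_mk (g : K) (l : List (ℤˣ × K))
    (h : l.IsChain (fun a b => a.2 ∈ toSubgroup P Q a.1 → a.1 = b.1)) :
    (⟨g, l, h⟩ : ReducedWord K P Q).prod φ =
      of g * (l.map (fun x => (t : HNNExtension K P Q φ) ^ (x.1 : ℤ) * of x.2)).prod := rfl

/-- Changing the group part of the last letter. -/
theorem startSet_mul_of (x : HNNExtension K P Q φ) (g : K) :
    x ∈ startSet φ ↔ x * of g ∈ startSet φ := by
  obtain ⟨⟨h, l, hl⟩, rfl⟩ := exists_reduced x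
  rcases List.eq_nil_or_concat' l with rfl | ⟨l, ⟨u, k⟩, rfl⟩
  · have h1 : (⟨h, [], hl⟩ : ReducedWord K P Q).prod φ * of g =
        (⟨h * g, [], hl⟩ : ReducedWord K P Q).prod φ := by
      rw [prod_mk, prod_mk]; simp
    rw [h1, mem_startSet_iff, mem_startSet_iff]
    simp
  · have hc : (l ++ [(u, k * g)]).IsChain (fun a b => a.2 ∈ toSubgroup P Q a.1 → a.1 = b.1) := by
      rw [List.isChain_append] at hl ⊢
      refine ⟨hl.1, List.isChain_singleton _, ?_⟩
      intro x hx z hz
      simp only [List.head?_cons, Option.mem_def, Option.some.injEq] at hz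
      subst hz
      exact hl.2.2 x hx (u, k) rfl
    have h1 : (⟨h, l ++ [(u, k)], hl⟩ : ReducedWord K P Q).prod φ * of g =
        (⟨h, l ++ [(u, k * g)], hc⟩ : ReducedWord K P Q).prod φ := by
      rw [prod_append, prod_append]
      simp [mul_assoc]
    rw [h1, mem_startSet_iff, mem_startSet_iff]
    simp only
    cases l with
    | nil => simp
    | cons a l => simp

theorem startSet_mul_t (x : HNNExtension K P Q φ) :
    (x ∈ startSet φ ↔ x * t ∈ startSet φ) ∨ ∃ b ∈ Q, x = of b := by
  obtain ⟨⟨h, l, hl⟩, rfl⟩ := exists_reduced x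
  rcases List.eq_nil_or_concat' l with rfl | ⟨l, ⟨u, k⟩, rfl⟩
  · have hc : ([(1, 1)] : List (ℤˣ × K)).IsChain
        (fun a b => a.2 ∈ toSubgroup P Q a.1 → a.1 = b.1) := List.isChain_singleton _
    have h1 : (⟨h, [], hl⟩ : ReducedWord K P Q).prod φ * t =
        (⟨h, [(1, 1)], hc⟩ : ReducedWord K P Q).prod φ := by
      rw [prod_mk, prod_mk]; simp
    rw [h1, mem_startSet_iff, mem_startSet_iff]
    by_cases hQ : h ∈ Q
    · right
      exact ⟨h, hQ, by rw [prod_mk]; simp⟩
    · left
      simp [hQ]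
  · left
    by_cases hcan : u = -1 ∧ k ∈ Q
    · obtain ⟨rfl, hk⟩ := hcan
      -- cancellation
      have ht : (t : HNNExtension K P Q φ) ^ (((-1 : ℤˣ) : ℤ)) * of k * t =
          of (φ.symm ⟨k, hk⟩ : K) := by
        rw [equiv_symm_eq_conj]
        simp
      rcases List.eq_nil_or_concat' l with rfl | ⟨l, ⟨u', k'⟩, rfl⟩
      · have h1 : (⟨h, [] ++ [(-1, k)], hl⟩ : ReducedWord K P Q).prod φ * t =
            (⟨h * (φ.symm ⟨k, hk⟩ : K), [], List.isChain_nil⟩ : ReducedWord K P Q).prod φ := by
          rw [prod_append, prod_mk]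
          simp only [List.map_nil, List.prod_nil, List.map_cons, List.prod_cons, mul_one, map_mul]
          rw [mul_assoc, mul_assoc, ← mul_assoc _ (of k) t, ht]
        rw [h1, mem_startSet_iff, mem_startSet_iff]
        simp
      · have hc : (l ++ [(u', k' * (φ.symm ⟨k, hk⟩ : K))]).IsChain
            (fun a b => a.2 ∈ toSubgroup P Q a.1 → a.1 = b.1) := by
          rw [List.isChain_append] at hl
          have hl1 := hl.1
          rw [List.isChain_append] at hl1 ⊢
          refine ⟨hl1.1, List.isChain_singleton _, ?_⟩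
          intro x hx z hz
          simp only [List.head?_cons, Option.mem_def, Option.some.injEq] at hz
          subst hz
          exact hl1.2.2 x hx (u', k') rfl
        have h1 : (⟨h, l ++ [(u', k')] ++ [(-1, k)], hl⟩ : ReducedWord K P Q).prod φ * t =
            (⟨h, l ++ [(u', k' * (φ.symm ⟨k, hk⟩ : K))], hc⟩ : ReducedWord K P Q).prod φ := by
          rw [prod_append, prod_append]
          simp only [List.map_append, List.prod_append, List.map_nil, List.prod_nil,
            List.map_cons, List.prod_cons, mul_one, map_mul, mul_assoc]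
          rw [← mul_assoc (_ ^ _) (of k) t, ht]
        rw [h1, mem_startSet_iff, mem_startSet_iff]
        simp only
        cases l with
        | nil => simp
        | cons a l => simp
    · have hc : (l ++ [(u, k)] ++ [((1 : ℤˣ), (1 : K))]).IsChain
          (fun a b : ℤˣ × K => a.2 ∈ toSubgroup P Q a.1 → a.1 = b.1) := by
        rw [List.isChain_append]
        refine ⟨hl, List.isChain_singleton _, ?_⟩
        intro x hx z hz hmem
        simp only [List.head?_cons, Option.mem_def, Option.some.injEq] at hz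
        subst hz
        rw [List.getLast?_append] at hx
        simp only [List.getLast?_singleton, Option.some_or, Option.mem_def,
          Option.some.injEq] at hx
        subst hx
        rcases Int.units_eq_one_or u with rfl | rfl
        · rfl
        · exact absurd ⟨rfl, hmem⟩ hcan
      have h1 : (⟨h, l ++ [(u, k)], hl⟩ : ReducedWord K P Q).prod φ * t =
          (⟨h, l ++ [(u, k)] ++ [(1, 1)], hc⟩ : ReducedWord K P Q).prod φ := by
        rw [prod_append, prod_append]
        simp [mul_assoc]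
      rw [h1, mem_startSet_iff, mem_startSet_iff]
      simp only
      cases l with
      | nil => simp
      | cons a l => simp

theorem startSet_inv {b : K} (hb : b ∈ Q) (x : HNNExtension K P Q φ) :
    of b * x ∈ startSet φ ↔ x ∈ startSet φ := by
  obtain ⟨⟨h, l, hl⟩, rfl⟩ := exists_reduced x
  have h1 : of b * (⟨h, l, hl⟩ : ReducedWord K P Q).prod φ =
      (⟨b * h, l, hl⟩ : ReducedWord K P Q).prod φ := by
    rw [prod_mk, prod_mk, map_mul, mul_assoc]
  rw [h1, mem_startSet_iff, mem_startSet_iff]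
  simp only
  rw [Q.mul_mem_cancel_left hb]

/-- The coboundary of `startSet` is finite modulo `Q`. -/
theorem startSet_fin (s : HNNExtension K P Q φ) : ∃ F : Set (HNNExtension K P Q φ), F.Finite ∧
    ∀ x, (x ∈ startSet φ ↔ x * s ∈ startSet φ) ∨ ∃ c ∈ Q.map (of (φ := φ)), ∃ f ∈ F, x = c * f := by
  induction s using HNNExtension.induction_on with
  | of g => exact ⟨∅, Set.finite_empty, fun x => Or.inl (startSet_mul_of x g)⟩
  | t =>
    refine ⟨{1}, Set.finite_singleton _, fun x => ?_⟩
    rcases startSet_mul_t x with h | ⟨b, hb, rfl⟩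
    · exact Or.inl h
    · exact Or.inr ⟨of b, Subgroup.mem_map_of_mem _ hb, 1, rfl, by simp⟩
  | mul s s' ih ih' =>
    obtain ⟨F, hF1, hF2⟩ := ih
    obtain ⟨F', hF1', hF2'⟩ := ih'
    refine ⟨F ∪ (fun f => f * s⁻¹) '' F', hF1.union (hF1'.image _), fun x => ?_⟩
    rcases hF2 x with h | ⟨c, hc, f, hf, h⟩
    · rcases hF2' (x * s) with h' | ⟨c, hc, f, hf, h'⟩
      · left
        rw [h, h', mul_assoc]
      · right
        refine ⟨c, hc, f * s⁻¹, Or.inr ⟨f, hf, rfl⟩, ?_⟩
        rw [← mul_assoc, ← h']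
        group
    · exact Or.inr ⟨c, hc, f, Or.inl hf, h⟩
  | inv s ih =>
    obtain ⟨F, hF1, hF2⟩ := ih
    refine ⟨(fun f => f * s) '' F, hF1.image _, fun x => ?_⟩
    rcases hF2 (x * s⁻¹) with h | ⟨c, hc, f, hf, h⟩
    · left
      rw [h, inv_mul_cancel_right]
    · right
      refine ⟨c, hc, f * s, ⟨f, hf, rfl⟩, ?_⟩
      rw [← mul_assoc, ← h]
      group

/-- A wall in an HNN extension. -/
theorem isWall_startSet {y : HNNExtension K P Q φ} (hy : ∀ b ∈ Q, y * of b = of b * y)
    (hpos : ∃ k : ℕ, ∀ j : ℕ, k ≤ j → y ^ j ∈ startSet φ)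
    (hneg : ∃ k : ℕ, ∀ j : ℕ, k ≤ j → (y ^ j)⁻¹ ∉ startSet φ) :
    IsWall (Q.map (of (φ := φ))) y (startSet φ) := by
  refine ⟨?_, ?_, startSet_fin, hpos, hneg⟩
  · rintro _ ⟨b, hb, rfl⟩
    exact hy b hb
  · rintro _ ⟨b, hb, rfl⟩ x
    exact startSet_inv hb x

end Pool.Agent.SLX
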