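import Mathlib
import Pool.Agent.SLX.Cocycle
/-!
# The wall theorem
-/
namespace Pool.Agent.SLX
open Relation

variable {A G : Type} [LinearOrder A] [Group G] {π : A → G} {E : Set (List A × List A)}
  {C : Subgroup G} {y : G} {H : Set G}

/-- Distance of `g` to the powers of `y`. -/
noncomputable def nu (π : A → G) (y g : G) : ℕ := sInf {n | ∃ l : ℤ, len π (y ^ l * g) = n}

theorem exists_nu (π : A → G) (y g : G) : ∃ l : ℤ, len π (y ^ l * g) = nu π y g := by
  have hne : {n | ∃ l : ℤ, len π (y ^ l * g) = n}.Nonempty := ⟨_, 0, rfl⟩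
  exact Nat.sInf_mem hne

theorem nu_le (π : A → G) (y g : G) (l : ℤ) : nu π y g ≤ len π (y ^ l * g) :=
  Nat.sInf_le ⟨l, rfl⟩

theorem nu_mul_le (h : IsSystem π E) (hW : IsWall C y H) {c : G} (hc : c ∈ C) (g : G) :
    nu π y (c * g) ≤ nu π y c + nu π y g := by
  obtain ⟨l, hl⟩ := exists_nu π y c
  obtain ⟨l', hl'⟩ := exists_nu π y g
  have h1 := nu_le π y (c * g) (l + l')
  have h2 : y ^ (l + l') * (c * g) = (y ^ l * c) * (y ^ l' * g) := by
    rw [zpow_add, mul_assoc, mul_assoc, ← mul_assoc (y ^ l') c g, hW.comm_zpow hc l', mul_assoc]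
  rw [h2] at h1
  have h3 := h.len_mul_le (y ^ l * c) (y ^ l' * g)
  omega

/-- Only finitely many elements of `C` are close to the powers of `y`. -/
theorem nu_ball_finite [Finite A] (h : IsSystem π E) (hW : IsWall C y H) (n : ℕ) :
    {c | c ∈ C ∧ nu π y c ≤ n}.Finite := by
  choose L hL using exists_nu π y
  refine Set.Finite.of_finite_image (f := fun c => y ^ (L c) * c)
    ((h.ball_finite n).subset ?_) ?_
  · rintro _ ⟨c, hc, rfl⟩
    rw [Set.mem_ofPred_eq] at hc ⊢
    rw [hL c]
    exact hc.2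
  · rintro c ⟨hc, _⟩ c' ⟨hc', _⟩ heq
    simp only at heq
    have h1 : y ^ (L c - L c') = c' * c⁻¹ := by
      rw [zpow_sub]
      have h2 : y ^ L c = y ^ L c' * (c' * c⁻¹) := by rw [← mul_assoc, ← heq]; group
      rw [h2, hW.comm_zpow (C.mul_mem hc' (C.inv_mem hc)) (L c'), mul_inv_cancel_right]
    have h3 := hW.zpow_mem (l := L c - L c') (by rw [h1]; exact C.mul_mem hc' (C.inv_mem hc))
    rw [h3, zpow_zero] at h1
    have h4 : c' * c⁻¹ * c = c := by rw [← h1, one_mul]
    rw [← h4]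
    group

/-- The threshold weight. -/
noncomputable def wgt (π : A → G) (C : Subgroup G) (y : G) (r : ℕ) (g : G) : ℤ := by
  classical
  exact if nu π y (posn C g) ≤ r then 1 else 0

theorem wgt_of_le {r : ℕ} {g : G} (h : nu π y (posn C g) ≤ r) : wgt π C y r g = 1 := by
  unfold wgt
  rw [if_pos h]

theorem wgt_of_lt {r : ℕ} {g : G} (h : r < nu π y (posn C g)) : wgt π C y r g = 0 := by
  unfold wgt
  rw [if_neg (by omega)]

theorem finite_splits (w : List A) :
    {u : List A | ∃ (a : A) (v : List A), w = u ++ a :: v}.Finite := by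
  have h1 : {u : List A | u ∈ w.inits}.Finite := by
    exact (w.inits.finite_toSet)
  refine h1.subset ?_
  rintro u ⟨a, v, rfl⟩
  rw [Set.mem_ofPred_eq, List.mem_inits]
  exact List.prefix_append _ _

/-- The positions at which the walls `y^l H` are crossed by the path from `1` reading `w`. -/
theorem crossings_finite [Finite A] (hW : IsWall C y H) (π : A → G) (w : List A) :
    {κ : G | ∃ (l : ℤ) (u : List A) (a : A) (v : List A), w = u ++ a :: v ∧
      cr H (y ^ l * val π u) (π a) ≠ 0 ∧ κ = posn C (y ^ l * val π u)}.Finite := by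
  obtain ⟨B, hB1, hB2⟩ := hW.exists_reps π
  have h1 : (⋃ u ∈ {u : List A | ∃ (a : A) (v : List A), w = u ++ a :: v},
      (fun l : ℤ => posn C (y ^ l * val π u)) ''
        ((fun l : ℤ => rep C (y ^ l * val π u)) ⁻¹' B)).Finite := by
    refine Set.Finite.biUnion (finite_splits w) ?_
    intro u _
    exact (hB1.preimage (hW.rep_inj (val π u)).injOn).image _
  refine h1.subset ?_
  rintro κ ⟨l, u, a, v, hw, hc, rfl⟩
  rw [Set.mem_iUnion₂]
  exact ⟨u, ⟨a, v, hw⟩, l, hB2 _ _ hc, rfl⟩

/-- The total crossing number of a path for `y` from `1` is one. -/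
theorem tot_one [Finite A] (hW : IsWall C y H) (π : A → G) {w : List A} (hw : val π w = y)
    {r : ℕ} (hr : ∀ κ, (∃ (l : ℤ) (u : List A) (a : A) (v : List A), w = u ++ a :: v ∧
      cr H (y ^ l * val π u) (π a) ≠ 0 ∧ κ = posn C (y ^ l * val π u)) → nu π y κ ≤ r) :
    tot π H y (wgt π C y r) 1 w = 1 := by
  have h1 : ∀ l : ℤ, wcr π H (wgt π C y r) (y ^ l * 1) w = ind H (y ^ (l + 1)) - ind H (y ^ l) := by
    intro l
    rw [wcr_const _ 1, one_mul, mul_one, hw, zpow_add_one]
    intro u a v huv hne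
    rw [mul_one] at hne ⊢
    exact wgt_of_le (hr _ ⟨l, u, a, v, huv, hne, rfl⟩)
  unfold tot
  rw [finsum_congr h1]
  obtain ⟨K1, hK1⟩ := hW.pos
  obtain ⟨K2, hK2⟩ := hW.neg
  refine finsum_step (fun l => ind H (y ^ l)) (max K1 K2 : ℕ) ?_ ?_
  · intro l hl
    obtain ⟨k, rfl⟩ : ∃ k : ℕ, l = k := ⟨l.toNat, by omega⟩
    unfold ind
    rw [zpow_natCast, if_pos (hK1 k (by
      have := le_max_left K1 K2
      omega))]
  · intro l hl
    obtain ⟨k, rfl⟩ : ∃ k : ℕ, l = -(k : ℤ) := ⟨(-l).toNat, by omega⟩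
    unfold ind
    rw [zpow_neg, zpow_natCast, if_neg (hK2 k (by
      have := le_max_right K1 K2
      omega))]

/-- Far away from `1` the path for `y` has weighted crossing number zero. -/
theorem tot_zero (hW : IsWall C y H) (π : A → G) {w : List A} {c : G} (hc : c ∈ C)
    {r : ℕ} (hr : ∀ κ, (∃ (l : ℤ) (u : List A) (a : A) (v : List A), w = u ++ a :: v ∧
      cr H (y ^ l * val π u) (π a) ≠ 0 ∧ κ = posn C (y ^ l * val π u)) → r < nu π y (c * κ)) :
    tot π H y (wgt π C y r) c w = 0 := by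
  unfold tot
  have h1 : ∀ l : ℤ, wcr π H (wgt π C y r) (y ^ l * c) w = 0 := by
    intro l
    rw [wcr_const _ 0, zero_mul]
    intro u a v huv hne
    rw [hW.comm_zpow hc l, mul_assoc] at hne ⊢
    rw [cr_mul hW hc] at hne
    apply wgt_of_lt
    rw [posn_mul hc]
    exact hr _ ⟨l, u, a, v, huv, hne, rfl⟩
  rw [finsum_congr h1, finsum_zero]

/-- The splitting lemma. -/
theorem exists_split [Finite A] (h : IsSystem π E) (hW : IsWall C y H) :
    ∃ K : ℕ, ∀ c ∈ C, 4 * K < nu π y c → ∃ c₁ ∈ C, nu π y c₁ ≤ 3 * K ∧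
      nu π y (c₁⁻¹ * c) < nu π y c := by
  classical
  obtain ⟨R, hR⟩ := h.exists_bound
  obtain ⟨B, hB1, hB2⟩ := hW.exists_reps π
  obtain ⟨Y, hY⟩ := h.surj y
  have hWfin : {w : List A | w.length ≤ R}.Finite := List.finite_length_le A R
  have hP := crossings_finite hW π Y
  set P := {κ : G | ∃ (l : ℤ) (u : List A) (a : A) (v : List A), Y = u ++ a :: v ∧
      cr H (y ^ l * val π u) (π a) ≠ 0 ∧ κ = posn C (y ^ l * val π u)} with hPdef
  obtain ⟨K1, hK1⟩ := (hP.image (fun κ => nu π y κ)).bddAbove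
  obtain ⟨K2, hK2⟩ := (hP.image (fun κ => nu π y κ⁻¹)).bddAbove
  obtain ⟨K3, hK3⟩ := (((hB1.prod hWfin).prod (hB1.prod hWfin)).image
    (fun x : (G × List A) × (G × List A) =>
      nu π y (x.1.1 * (val π x.1.2)⁻¹ * val π x.2.2 * x.2.1⁻¹))).bddAbove
  obtain ⟨K4, hK4⟩ := ((hB1.prod hWfin).image
    (fun x : G × List A => len π (val π x.2 * x.1⁻¹))).bddAbove
  obtain ⟨K5, hK5⟩ := ((hB1.prod hWfin).image
    (fun x : G × List A => len π (x.1 * (val π x.2)⁻¹))).bddAbove
  refine ⟨K1 + K2 + K3 + K4 + K5 + Y.length + 1, ?_⟩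
  set K := K1 + K2 + K3 + K4 + K5 + Y.length + 1 with hKdef
  intro c hc hcK
  set r := 3 * K with hr
  obtain ⟨k, hk⟩ := exists_nu π y c
  obtain ⟨g, hg1, hg2⟩ := h.exists_len (y ^ k * c)
  have hone : tot π H y (wgt π C y r) 1 Y = 1 := by
    apply tot_one hW π hY
    intro κ hκ
    have : nu π y κ ≤ K1 := hK1 ⟨κ, hκ, rfl⟩
    omega
  have hzero : tot π H y (wgt π C y r) c Y = 0 := by
    apply tot_zero hW π hc
    intro κ hκ
    have h1 : nu π y κ⁻¹ ≤ K2 := hK2 ⟨κ, hκ, rfl⟩
    have h2 : κ ∈ C := by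
      obtain ⟨l, u, a, v, _, _, rfl⟩ := hκ
      exact posn_mem _
    have h3 := nu_mul_le h hW (C.mul_mem hc h2) κ⁻¹
    rw [mul_inv_cancel_right] at h3
    omega
  have hval : val π (Y ++ g) = val π (g ++ Y) := by
    rw [val_append, val_append, hY, hg2]
    rw [← mul_assoc, ← zpow_one_add, mul_assoc, ← hW.comm c hc, ← mul_assoc, ← zpow_add_one,
      add_comm]
  have hne : tot π H y (wgt π C y r) 1 (Y ++ g) ≠ tot π H y (wgt π C y r) 1 (g ++ Y) := by
    rw [tot_append hW, tot_append hW, one_mul, one_mul, hY, hg2]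
    have h1 : tot π H y (wgt π C y r) y g = tot π H y (wgt π C y r) 1 g := by
      have := tot_shift (y := y) (H := H) π (wgt π C y r) 1 1 g
      rw [zpow_one, mul_one] at this
      exact this
    have h2 : tot π H y (wgt π C y r) (y ^ k * c) Y = tot π H y (wgt π C y r) c Y :=
      tot_shift (y := y) (H := H) π (wgt π C y r) c k Y
    rw [h1, h2, hone, hzero]
    omega
  obtain ⟨p, l, l', q, hrule, hlen, hne', hval'⟩ := h.exists_move
    (fun w => tot π H y (wgt π C y r) 1 w) (u := Y ++ g) (v := g ++ Y)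
    (M := Y.length + g.length) (by simp) (by simp [add_comm]) hval hne
  have hll : val π l = val π l' := h.val_rule hrule
  have hne2 : tot π H y (wgt π C y r) (val π p) l ≠ tot π H y (wgt π C y r) (val π p) l' := by
    intro heq
    apply hne'
    rw [tot_append hW, tot_append hW, tot_append hW, tot_append hW, val_append, val_append,
      one_mul, one_mul, one_mul, heq, hll]
  obtain ⟨m, hm⟩ : ∃ m : ℤ, wcr π H (wgt π C y r) (y ^ m * val π p) l ≠
      wcr π H (wgt π C y r) (y ^ m * val π p) l' := by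
    by_contra hcon
    push Not at hcon
    exact hne2 (finsum_congr hcon)
  set g0 := y ^ m * val π p with hg0
  -- a crossing of small position and a crossing of large position
  obtain ⟨u1, a1, hu1, hc1, hq1⟩ : ∃ (u : List A) (a : A), u.length ≤ R ∧
      cr H (g0 * val π u) (π a) ≠ 0 ∧ nu π y (posn C (g0 * val π u)) ≤ r := by
    by_contra hcon
    push Not at hcon
    apply hm
    rw [wcr_const _ 0 g0 l, wcr_const _ 0 g0 l', zero_mul, zero_mul]
    · intro u a v huv hne
      refine wgt_of_lt (hcon u a ?_ hne)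
      have := (hR l l' hrule).2
      rw [huv] at this
      simp at this
      omega
    · intro u a v huv hne
      refine wgt_of_lt (hcon u a ?_ hne)
      have := (hR l l' hrule).1
      rw [huv] at this
      simp at this
      omega
  obtain ⟨u2, a2, hu2, hc2, hq2⟩ : ∃ (u : List A) (a : A), u.length ≤ R ∧
      cr H (g0 * val π u) (π a) ≠ 0 ∧ r < nu π y (posn C (g0 * val π u)) := by
    by_contra hcon
    push Not at hcon
    apply hm
    rw [wcr_const _ 1 g0 l, wcr_const _ 1 g0 l', hll]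
    · intro u a v huv hne
      refine wgt_of_le (hcon u a ?_ hne)
      have := (hR l l' hrule).2
      rw [huv] at this
      simp at this
      omega
    · intro u a v huv hne
      refine wgt_of_le (hcon u a ?_ hne)
      have := (hR l l' hrule).1
      rw [huv] at this
      simp at this
      omega
  have hb1 := hB2 _ _ hc1
  have hb2 := hB2 _ _ hc2
  set b1 := rep C (g0 * val π u1) with hb1def
  set b2 := rep C (g0 * val π u2) with hb2def
  set c1 := posn C (g0 * val π u1) with hc1def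
  set c2 := posn C (g0 * val π u2) with hc2def
  have e1 : c1 * b1 = g0 * val π u1 := posn_mul_rep _
  have e2 : c2 * b2 = g0 * val π u2 := posn_mul_rep _
  have hc1C : c1 ∈ C := posn_mem _
  have hc2C : c2 ∈ C := posn_mem _
  have e3 : c2 = c1 * (b1 * (val π u1)⁻¹ * val π u2 * b2⁻¹) := by
    have h1 : c1 * (b1 * (val π u1)⁻¹ * val π u2 * b2⁻¹) =
        (c1 * b1) * (val π u1)⁻¹ * val π u2 * b2⁻¹ := by group
    rw [h1, e1, mul_inv_cancel_right, ← e2]
    group
  have hν2 : nu π y c2 ≤ nu π y c1 + K3 := by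
    have h1 := nu_mul_le h hW hc1C (b1 * (val π u1)⁻¹ * val π u2 * b2⁻¹)
    rw [← e3] at h1
    have h2 : nu π y (b1 * (val π u1)⁻¹ * val π u2 * b2⁻¹) ≤ K3 :=
      hK3 ⟨((b1, u1), (b2, u2)), ⟨⟨hb1, hu1⟩, ⟨hb2, hu2⟩⟩, rfl⟩
    omega
  have e4 : y ^ (-m) * c1 = val π p * (val π u1 * b1⁻¹) := by
    have h1 : c1 = y ^ m * val π p * val π u1 * b1⁻¹ := by
      rw [← hg0, ← e1]; group
    rw [h1]; group
  have hν1 : nu π y c1 ≤ p.length + K4 := by
    have h1 := nu_le π y c1 (-m)
    rw [e4] at h1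
    have h2 := h.len_mul_le (val π p) (val π u1 * b1⁻¹)
    have h3 : len π (val π p) ≤ p.length := len_val_le p
    have h4 : len π (val π u1 * b1⁻¹) ≤ K4 := hK4 ⟨(b1, u1), ⟨hb1, hu1⟩, rfl⟩
    omega
  have e5 : y ^ (m + (k + 1)) * (c1⁻¹ * c) = b1 * (val π u1)⁻¹ * val π (l ++ q) := by
    have h1 : y ^ (k + 1) * c = val π p * val π (l ++ q) := by
      rw [List.append_assoc, val_append, val_append Y g, hY, hg2, ← mul_assoc, ← zpow_one_add,
        add_comm 1 k] at hval'
      exact hval'.symm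
    have h2 : c1⁻¹ * (y ^ m * val π p) = b1 * (val π u1)⁻¹ := by
      have : c1 * (b1 * (val π u1)⁻¹) = y ^ m * val π p := by
        rw [← mul_assoc, e1, mul_inv_cancel_right]
      rw [← this]; group
    have hci := C.inv_mem hc1C
    calc y ^ (m + (k + 1)) * (c1⁻¹ * c) = y ^ m * (y ^ (k + 1) * c1⁻¹) * c := by
          rw [zpow_add y m (k + 1)]; group
      _ = y ^ m * c1⁻¹ * (y ^ (k + 1) * c) := by rw [hW.comm_zpow hci (k + 1)]; group
      _ = c1⁻¹ * (y ^ m * val π p) * val π (l ++ q) := by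
          rw [h1, hW.comm_zpow hci m]; group
      _ = _ := by rw [h2]
  have hν3 : nu π y (c1⁻¹ * c) ≤ K5 + (l.length + q.length) := by
    have h1 := nu_le π y (c1⁻¹ * c) (m + (k + 1))
    rw [e5] at h1
    have h2 := h.len_mul_le (b1 * (val π u1)⁻¹) (val π (l ++ q))
    have h3 : len π (val π (l ++ q)) ≤ (l ++ q).length := len_val_le _
    rw [List.length_append] at h3
    have h4 : len π (b1 * (val π u1)⁻¹) ≤ K5 := hK5 ⟨(b1, u1), ⟨hb1, hu1⟩, rfl⟩
    omega
  simp only [List.length_append] at hlen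
  refine ⟨c1, hc1C, hq1, ?_⟩
  rw [hg1] at hlen
  omega

/-- The wall theorem. -/
theorem wall_short [Finite A] (h : IsSystem π E) (hW : IsWall C y H) :
    ∃ S : Set G, S.Finite ∧ S ⊆ C ∧ ∀ c ∈ C, IsShort S (len π c + 1) c := by
  obtain ⟨K, hK⟩ := exists_split h hW
  refine ⟨{c | c ∈ C ∧ nu π y c ≤ 4 * K}, nu_ball_finite h hW _, fun c hc => hc.1, ?_⟩
  have key : ∀ (n : ℕ) (c : G), c ∈ C → nu π y c ≤ n →
      IsShort {c | c ∈ C ∧ nu π y c ≤ 4 * K} (n + 1) c := by
    intro n
    induction n using Nat.strong_induction_on with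
    | _ n ih =>
      intro c hc hn
      rcases Nat.lt_or_ge (4 * K) (nu π y c) with h1 | h1
      · obtain ⟨c1, hc1, h2, h3⟩ := hK c hc h1
        obtain ⟨v, hv1, hv2, hv3⟩ := ih (nu π y (c1⁻¹ * c)) (by omega) (c1⁻¹ * c)
          (C.mul_mem (C.inv_mem hc1) hc) le_rfl
        refine ⟨c1 :: v, ?_, ?_, ?_⟩
        · intro x hx
          rcases List.mem_cons.1 hx with rfl | hx
          · exact ⟨hc1, by omega⟩
          · exact hv1 x hx
        · rw [List.prod_cons, hv2, mul_inv_cancel_left]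
        · rw [List.length_cons]; omega
      · exact ⟨[c], by simpa using ⟨hc, h1⟩, by simp, by simp⟩
  intro c hc
  have h1 := nu_le π y c 0
  rw [zpow_zero, one_mul] at h1
  exact key (len π c) c hc h1

/-- A finitely generated undistorted subgroup from the wall theorem. -/
theorem undistorted_of_wall {G : Type} [Group G] (hG : HasSystem G) {C : Subgroup G} {y : G}
    {H : Set G} (hW : IsWall C y H) : Undistorted C := by
  obtain ⟨A, _, _, π, E, h⟩ := hG
  obtain ⟨S, hS1, hS2, hS3⟩ := wall_short h hW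
  refine ⟨S, hS1, ?_, ?_⟩
  · apply le_antisymm
    · rw [Subgroup.closure_le]
      exact hS2
    · intro c hc
      obtain ⟨v, hv1, hv2, _⟩ := hS3 c hc
      rw [← hv2]
      exact Subgroup.list_prod_mem _ (fun x hx => Subgroup.subset_closure (hv1 x hx))
  · intro X hX
    obtain ⟨L, hL⟩ := (hX.image (fun x => len π x)).bddAbove
    refine ⟨L + 1, ?_⟩
    intro n g hg hgC
    obtain ⟨v, hv1, hv2, hv3⟩ := hg
    have hlen : len π g ≤ L * n := by
      have key : ∀ v : List G, (∀ x ∈ v, x ∈ X) → len π v.prod ≤ L * v.length := by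
        intro v
        induction v with
        | nil =>
          intro _
          have := len_val_le (π := π) []
          rw [val_nil] at this
          simpa using this
        | cons x v ih =>
          intro hv
          have h1 := ih (fun z hz => hv z (List.mem_cons_of_mem _ hz))
          have h2 : len π x ≤ L := hL ⟨x, hv x List.mem_cons_self, rfl⟩
          have h3 := h.len_mul_le x v.prod
          rw [List.prod_cons, List.length_cons, Nat.mul_succ]
          omega
      have h1 := key v hv1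
      rw [hv2] at h1
      exact h1.trans (Nat.mul_le_mul_left L hv3)
    obtain ⟨u, hu1, hu2, hu3⟩ := hS3 g hgC
    refine ⟨u, hu1, hu2, hu3.trans ?_⟩
    rw [Nat.add_mul]
    omega

end Pool.Agent.SLX
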