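import Mathlib
import Pool.Agent.SLX.Defs
import Pool.Agent.SLX.Wall
import Pool.Agent.SLX.HNN
/-!
# Applications of the wall theorem
-/
namespace Pool.Agent.SLX
open HNNExtension HNNExtension.NormalWord

/-! ### Invariance under isomorphisms -/

theorem HasSystem.of_equiv {G G' : Type} [Group G] [Group G'] (f : G ≃* G') (h : HasSystem G) :
    HasSystem G' := by
  obtain ⟨A, hA, hL, π, E, hE⟩ := h
  have hval : ∀ w : List A, val (fun a => f (π a)) w = f (val π w) := by
    intro w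
    unfold val
    rw [map_list_prod, List.map_map]
    rfl
  refine ⟨A, hA, hL, fun a => f (π a), E, ⟨hE.finite, hE.rule, hE.complete, ?_, ?_⟩⟩
  · intro g
    obtain ⟨w, hw⟩ := hE.surj (f.symm g)
    exact ⟨w, by rw [hval, hw]; simp⟩
  · intro u v
    rw [hval, hval, f.injective.eq_iff]
    exact hE.presents u v

/-! ### Undistorted subgroups along injective maps -/

theorem Undistorted.of_map {K G : Type} [Group K] [Group G] (f : K →* G)
    (hf : Function.Injective f) {C : Subgroup K} (h : Undistorted (C.map f)) :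
    Undistorted C := by
  obtain ⟨S, hS1, hS2, hS3⟩ := h
  have hSr : ∀ s ∈ S, ∃ c ∈ C, f c = s := by
    intro s hs
    have : s ∈ C.map f := by rw [← hS2]; exact Subgroup.subset_closure hs
    exact this
  have himg : f '' (f ⁻¹' S) = S := by
    ext s
    constructor
    · rintro ⟨x, hx, rfl⟩; exact hx
    · intro hs
      obtain ⟨c, _, hc⟩ := hSr s hs
      exact ⟨c, by simpa [hc] using hs, hc⟩
  refine ⟨f ⁻¹' S, hS1.preimage hf.injOn, ?_, ?_⟩
  · apply Subgroup.map_injective hf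
    rw [MonoidHom.map_closure, himg, hS2]
  · intro X hX
    obtain ⟨L, hL⟩ := hS3 (f '' X) (hX.image f)
    refine ⟨L, fun n g hg hgC => ?_⟩
    obtain ⟨v, hv1, hv2, hv3⟩ := hg
    obtain ⟨w, hw1, hw2, hw3⟩ := hL n (f g) ⟨v.map f, by
      intro x hx
      obtain ⟨y, hy, rfl⟩ := List.mem_map.1 hx
      exact ⟨y, hv1 y hy, rfl⟩, by rw [← map_list_prod, hv2], by simpa using hv3⟩
      (Subgroup.mem_map_of_mem _ hgC)
    have : ∃ w' : List K, w'.map f = w ∧ ∀ x ∈ w', x ∈ f ⁻¹' S := by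
      clear hw2 hw3
      induction w with
      | nil => exact ⟨[], rfl, by simp⟩
      | cons a w ih =>
        obtain ⟨w', h1, h2⟩ := ih (fun x hx => hw1 x (List.mem_cons_of_mem _ hx))
        obtain ⟨c, _, hc⟩ := hSr a (hw1 a List.mem_cons_self)
        refine ⟨c :: w', by rw [List.map_cons, h1, hc], ?_⟩
        intro x hx
        rcases List.mem_cons.1 hx with rfl | hx
        · simpa [hc] using hw1 a List.mem_cons_self
        · exact h2 x hx
    obtain ⟨w', hw'1, hw'2⟩ := this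
    refine ⟨w', hw'2, ?_, ?_⟩
    · apply hf
      rw [map_list_prod, hw'1, hw2]
    · rw [← hw'1, List.length_map] at hw3
      exact hw3

/-! ### The group `K *_C (C × ℤ)` -/

variable {K : Type} [Group K]

theorem centralHNN_undistorted (C : Subgroup K)
    (h : HasSystem (HNNExtension K C C (MulEquiv.refl C))) : Undistorted C := by
  have hcommon : ∀ (u : ℤˣ) (k : ℕ), (List.replicate k (u, (1 : K))).IsChain
      (fun a b => a.2 ∈ toSubgroup C C a.1 → a.1 = b.1) := by
    intro u k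
    exact List.isChain_replicate_of_rel _ (fun _ => rfl)
  have hprod : ∀ (u : ℤˣ) (k : ℕ),
      (⟨1, List.replicate k (u, (1 : K)), hcommon u k⟩ : ReducedWord K C C).prod
        (MulEquiv.refl C) = (t ^ (u : ℤ)) ^ k := by
    intro u k
    rw [prod_mk, List.map_replicate, List.prod_replicate]
    simp
  have hw : IsWall (C.map (of (φ := MulEquiv.refl C))) t (startSet (MulEquiv.refl C)) := by
    refine isWall_startSet ?_ ⟨1, fun j hj => ?_⟩ ⟨0, fun j _ => ?_⟩
    · intro b hb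
      exact t_mul_of (φ := MulEquiv.refl C) ⟨b, hb⟩
    · have := hprod 1 j
      rw [Units.val_one, zpow_one] at this
      rw [← this, mem_startSet_iff]
      obtain ⟨i, rfl⟩ : ∃ i, j = i + 1 := ⟨j - 1, by omega⟩
      simp [List.replicate_succ, C.one_mem]
    · have := hprod (-1) j
      have h2 : ((t : HNNExtension K C C (MulEquiv.refl C)) ^ (((-1 : ℤˣ)) : ℤ)) ^ j =
          (t ^ j)⁻¹ := by simp
      rw [h2] at this
      rw [← this, mem_startSet_iff]
      cases j with
      | zero => simp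
      | succ j => simp [List.replicate_succ]
  exact (undistorted_of_wall h hw).of_map _ (of_injective (MulEquiv.refl C))

/-! ### Distorted cyclic subgroups -/

theorem alt_pow {G : Type} [Group G] {a s : G} {p q : ℤ} (h : s * a ^ q = a ^ p * s) (k : ℤ) :
    s * a ^ (q * k) = a ^ (p * k) * s := by
  have h1 : s * a ^ q * s⁻¹ = a ^ p := by rw [h]; group
  have h2 : (s * a ^ q * s⁻¹) ^ k = s * (a ^ q) ^ k * s⁻¹ := conj_zpow
  rw [zpow_mul, zpow_mul, ← h1, h2]
  group

theorem conj_pow_zpow {G : Type} [Group G] {a s : G} {p q : ℤ} (h : s * a ^ q = a ^ p * s)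
    (c : ℤ) (j : ℕ) : s ^ j * a ^ (c * q ^ j) * (s ^ j)⁻¹ = a ^ (c * p ^ j) := by
  induction j generalizing c with
  | zero => simp
  | succ j ih =>
    have h1 : s * a ^ (c * q ^ (j + 1)) = a ^ (c * p * q ^ j) * s := by
      have := alt_pow h (c * q ^ j)
      rw [show c * q ^ (j + 1) = q * (c * q ^ j) by ring,
        show c * p * q ^ j = p * (c * q ^ j) by ring]
      exact this
    have h2 := ih (c * p)
    rw [show c * p ^ (j + 1) = c * p * p ^ j by ring, ← h2, pow_succ]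
    calc s ^ j * s * a ^ (c * q ^ (j + 1)) * (s ^ j * s)⁻¹
        = s ^ j * (s * a ^ (c * q ^ (j + 1))) * s⁻¹ * (s ^ j)⁻¹ := by group
      _ = s ^ j * a ^ (c * p * q ^ j) * (s ^ j)⁻¹ := by rw [h1]; group

/-- Short products of `a^{±1}`, `s^{±1}`. -/
theorem isShort_conj {G : Type} [Group G] (a s : G) (e : ℤ) (j : ℕ) :
    IsShort {a, a⁻¹, s, s⁻¹} (e.natAbs + 2 * j) (s ^ j * a ^ e * (s ^ j)⁻¹) := by
  obtain ⟨b, hb, hb'⟩ : ∃ b : G, (b = a ∨ b = a⁻¹) ∧ a ^ e = b ^ e.natAbs := by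
    rcases le_total 0 e with h | h
    · refine ⟨a, Or.inl rfl, ?_⟩
      conv_lhs => rw [← Int.natAbs_of_nonneg h]
      rw [zpow_natCast]
    · refine ⟨a⁻¹, Or.inr rfl, ?_⟩
      conv_lhs => rw [← neg_neg e, ← Int.natAbs_of_nonneg (neg_nonneg.2 h), Int.natAbs_neg]
      rw [zpow_neg, zpow_natCast, inv_pow]
  refine ⟨List.replicate j s ++ List.replicate e.natAbs b ++ List.replicate j s⁻¹, ?_, ?_, ?_⟩
  · intro x hx
    simp only [List.mem_append, List.mem_replicate] at hx
    rcases hx with (⟨_, rfl⟩ | ⟨_, rfl⟩) | ⟨_, rfl⟩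
    · simp
    · rcases hb with rfl | rfl <;> simp
    · simp
  · simp [hb', List.prod_replicate, mul_assoc]
  · simp; omega

/-- Products of `N` elements of a finite set of powers of `a` have exponents at most `M * N`. -/
theorem exists_exponent {G : Type} [Group G] (a : G) {S : Set G} (hS : S.Finite)
    (h : ∀ x ∈ S, ∃ e : ℤ, x = a ^ e) : ∃ M : ℕ, ∀ (N : ℕ) (g : G), IsShort S N g →
      ∃ e : ℤ, g = a ^ e ∧ e.natAbs ≤ M * N := by
  choose! e he using h
  obtain ⟨M, hM⟩ := (hS.image fun x => (e x).natAbs).bddAbove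
  refine ⟨M, fun N g hg => ?_⟩
  obtain ⟨v, h1, h2, h3⟩ := hg
  have : ∃ f : ℤ, v.prod = a ^ f ∧ f.natAbs ≤ M * v.length := by
    clear h2 h3
    induction v with
    | nil => exact ⟨0, by simp, by simp⟩
    | cons x v ih =>
      obtain ⟨f, hf1, hf2⟩ := ih (fun y hy => h1 y (List.mem_cons_of_mem _ hy))
      have hx := h1 x List.mem_cons_self
      refine ⟨e x + f, ?_, ?_⟩
      · rw [List.prod_cons, hf1, zpow_add, ← he x hx]
      · have h4 : (e x).natAbs ≤ M := hM ⟨x, hx, rfl⟩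
        have h5 := Int.natAbs_add_le (e x) f
        rw [List.length_cons, Nat.mul_add, Nat.mul_one]
        omega
  obtain ⟨f, hf1, hf2⟩ := this
  exact ⟨f, by rw [← h2, hf1], hf2.trans (Nat.mul_le_mul_left _ h3)⟩

theorem not_undistorted {G : Type} [Group G] {a s : G} {p q c : ℤ}
    (h : s * a ^ q = a ^ p * s) (hq : 2 ≤ q.natAbs) (hpq : q.natAbs < p.natAbs)
    (ha : Function.Injective (fun k : ℤ => a ^ k)) (hc : c ≠ 0) (C : Subgroup G)
    (hC : ∀ x ∈ C, ∃ e : ℤ, x = a ^ e) (hcC : a ^ c ∈ C) : ¬ Undistorted C := by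
  rintro ⟨S, hS1, hS2, hS3⟩
  obtain ⟨L, hL⟩ := hS3 {a, a⁻¹, s, s⁻¹} (by simp)
  obtain ⟨M, hM⟩ := exists_exponent a hS1 (fun x hx => hC x (by
    rw [← hS2]; exact Subgroup.subset_closure hx))
  have key : ∀ j : ℕ, c.natAbs * p.natAbs ^ j ≤
      M * (L * (c.natAbs * q.natAbs ^ j + 2 * j) + L) := by
    intro j
    have h1 := isShort_conj a s (c * q ^ j) j
    rw [conj_pow_zpow h c j] at h1
    have h2 : a ^ (c * p ^ j) ∈ C := by
      rw [zpow_mul]
      exact C.zpow_mem hcC _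
    obtain ⟨e, he1, he2⟩ := hM _ _ (hL _ _ h1 h2)
    have h3 : c * p ^ j = e := ha he1
    rw [← h3] at he2
    simpa [Int.natAbs_mul, Int.natAbs_pow] using he2
  -- the bound fails for large `j`
  have hc1 : 1 ≤ c.natAbs := Int.natAbs_pos.2 hc
  set Q := q.natAbs with hQ
  set P' := p.natAbs with hP
  set c' := c.natAbs with hc'
  have h2 : ∀ j : ℕ, 2 * j + 1 ≤ 2 * Q ^ j := by
    intro j
    have h3 : 2 ^ j ≤ Q ^ j := Nat.pow_le_pow_left hq j
    have h4 : j + 1 ≤ 2 ^ j := Nat.lt_two_pow_self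
    omega
  have h5 : ∀ j : ℕ, c' * P' ^ j ≤ (3 * M * L * c') * Q ^ j := by
    intro j
    refine (key j).trans ?_
    have h6 := h2 j
    have h7 : c' * Q ^ j + 2 * j + 1 ≤ 3 * (c' * Q ^ j) := by
      have : Q ^ j ≤ c' * Q ^ j := Nat.le_mul_of_pos_left _ hc1
      omega
    calc M * (L * (c' * Q ^ j + 2 * j) + L) = M * (L * (c' * Q ^ j + 2 * j + 1)) := by ring
      _ ≤ M * (L * (3 * (c' * Q ^ j))) := by gcongr
      _ = _ := by ring
  have h8 : (1 : ℝ) < (P' : ℝ) / Q := by
    rw [one_lt_div (by positivity)]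
    exact_mod_cast hpq
  obtain ⟨j, hj⟩ := pow_unbounded_of_one_lt ((3 * M * L : ℕ) : ℝ) h8
  have h9 := h5 j
  have h10 : P' ^ j ≤ (3 * M * L) * Q ^ j := by
    have : c' * P' ^ j ≤ c' * ((3 * M * L) * Q ^ j) := by
      calc c' * P' ^ j ≤ (3 * M * L * c') * Q ^ j := h9
        _ = _ := by ring
    exact Nat.le_of_mul_le_mul_left this hc1
  rw [div_pow, lt_div_iff₀ (by positivity)] at hj
  have h11 : ((P' ^ j : ℕ) : ℝ) ≤ (((3 * M * L) * Q ^ j : ℕ) : ℝ) := by exact_mod_cast h10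
  push_cast at h11 hj
  linarith

end Pool.Agent.SLX
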