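import Mathlib
import Pool.Agent.SLX.Defs
import Pool.Agent.SLX.Apps
/-!
# Baumslag-Solitar groups
-/
namespace Pool.Agent.SLX
open HNNExtension HNNExtension.NormalWord Multiplicative

/-- The relator of the Baumslag-Solitar group; `false` is the letter `a` and `true` is `t`. -/
def bsRel (m n : ℤ) : Set (FreeGroup Bool) :=
  {FreeGroup.of true * FreeGroup.of false ^ m * (FreeGroup.of true)⁻¹ *
    (FreeGroup.of false ^ n)⁻¹}

/-- The Baumslag-Solitar group `⟨a, t | t a^m t⁻¹ = a^n⟩`. -/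
abbrev BS (m n : ℤ) : Type := PresentedGroup (bsRel m n)

/-- Multiplication by `m` on the infinite cyclic group. -/
abbrev mulHom (m : ℤ) : Multiplicative ℤ →* Multiplicative ℤ := zpowersHom _ (ofAdd m)

theorem mulHom_apply (m k : ℤ) : mulHom m (ofAdd k) = ofAdd (m * k) := by
  rw [zpowersHom_apply, toAdd_ofAdd, ← ofAdd_zsmul]
  congr 1
  rw [smul_eq_mul, mul_comm]

theorem mulHom_injective {m : ℤ} (hm : m ≠ 0) : Function.Injective (mulHom m) := by
  intro x y h
  obtain ⟨x, rfl⟩ := ofAdd.surjective x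
  obtain ⟨y, rfl⟩ := ofAdd.surjective y
  rw [mulHom_apply, mulHom_apply] at h
  have h1 : m * x = m * y := ofAdd.injective h
  rw [mul_left_cancel₀ hm h1]

theorem mem_range_mulHom (m k : ℤ) : ofAdd k ∈ (mulHom m).range ↔ m ∣ k := by
  constructor
  · rintro ⟨x, hx⟩
    obtain ⟨x, rfl⟩ := ofAdd.surjective x
    rw [mulHom_apply] at hx
    exact ⟨x, (ofAdd.injective hx).symm⟩
  · rintro ⟨x, rfl⟩
    exact ⟨ofAdd x, mulHom_apply m x⟩

/-- The isomorphism `m k ↦ n k` of the subgroups `m ℤ` and `n ℤ` of `ℤ`. -/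
noncomputable def bsIso {m n : ℤ} (hm : m ≠ 0) (hn : n ≠ 0) :
    (mulHom m).range ≃* (mulHom n).range :=
  (MonoidHom.ofInjective (mulHom_injective hm)).symm.trans
    (MonoidHom.ofInjective (mulHom_injective hn))

theorem bsIso_apply {m n : ℤ} (hm : m ≠ 0) (hn : n ≠ 0) (k : ℤ)
    (h : mulHom m (ofAdd k) ∈ (mulHom m).range) :
    ((bsIso hm hn ⟨mulHom m (ofAdd k), h⟩ : (mulHom n).range) : Multiplicative ℤ) =
      mulHom n (ofAdd k) := by
  unfold bsIso
  rw [MulEquiv.trans_apply]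
  have : (MonoidHom.ofInjective (mulHom_injective hm)).symm ⟨mulHom m (ofAdd k), h⟩ =
      ofAdd k := by
    rw [MulEquiv.symm_apply_eq]
    rfl
  rw [this]
  rfl

section iso
variable {m n : ℤ} (hm : m ≠ 0) (hn : n ≠ 0)

/-- The Baumslag-Solitar group as an HNN extension. -/
abbrev BSH := HNNExtension (Multiplicative ℤ) (mulHom m).range (mulHom n).range (bsIso hm hn)

theorem bsh_rel : (t : BSH hm hn) * of (ofAdd 1) ^ m = of (ofAdd 1) ^ n * t := by
  have h1 := t_mul_of (φ := bsIso hm hn) ⟨mulHom m (ofAdd 1), ⟨_, rfl⟩⟩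
  rw [bsIso_apply] at h1
  simp only [mulHom_apply, mul_one] at h1
  have h2 : ∀ k : ℤ, (of (ofAdd 1) : BSH hm hn) ^ k = of (ofAdd k) := by
    intro k
    rw [← map_zpow (of (φ := bsIso hm hn)), ← ofAdd_zsmul, smul_eq_mul, mul_one]
  rw [h2, h2]
  exact h1

omit hm hn in
theorem bs_rel : (PresentedGroup.of true : BS m n) * PresentedGroup.of false ^ m =
    PresentedGroup.of false ^ n * PresentedGroup.of true := by
  have h := PresentedGroup.mk_eq_one_iff (rels := bsRel m n) (x := FreeGroup.of true *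
    FreeGroup.of false ^ m * (FreeGroup.of true)⁻¹ * (FreeGroup.of false ^ n)⁻¹) |>.2
      (Subgroup.subset_normalClosure rfl)
  simp only [map_mul, map_zpow, map_inv] at h
  rw [mul_inv_eq_one, mul_inv_eq_iff_eq_mul] at h
  exact h

/-- From the presentation to the HNN extension. -/
noncomputable def bsTo : BS m n →* BSH hm hn :=
  PresentedGroup.toGroup (f := fun b => if b then t else of (ofAdd 1)) (by
    intro r hr
    rw [bsRel, Set.mem_singleton_iff] at hr
    subst hr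
    simp only [map_mul, map_zpow, map_inv, FreeGroup.lift_apply_of, if_true, Bool.false_eq_true,
      if_false]
    rw [bsh_rel]
    group)

/-- From the HNN extension to the presentation. -/
noncomputable def bsFrom : BSH hm hn →* BS m n :=
  lift (zpowersHom _ (PresentedGroup.of false)) (PresentedGroup.of true) (by
    rintro ⟨_, k, rfl⟩
    obtain ⟨k, rfl⟩ := ofAdd.surjective k
    rw [bsIso_apply]
    change (PresentedGroup.of true : BS m n) *
      zpowersHom _ (PresentedGroup.of false) (mulHom m (ofAdd k)) =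
      zpowersHom _ (PresentedGroup.of false) (mulHom n (ofAdd k)) * PresentedGroup.of true
    rw [mulHom_apply, mulHom_apply, zpowersHom_apply, zpowersHom_apply, toAdd_ofAdd, toAdd_ofAdd]
    exact alt_pow bs_rel k)

noncomputable def bsEquiv : BS m n ≃* BSH hm hn :=
  MonoidHom.toMulEquiv (bsTo hm hn) (bsFrom hm hn)
    (by
      ext x
      cases x <;> simp [bsTo, bsFrom, zpowersHom_apply])
    (by
      ext
      · simp [bsTo, bsFrom, zpowersHom_apply]
      · simp [bsTo, bsFrom])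

/-! ### The wall -/

/-- The alternating list `(t g) (t⁻¹ g') (t g) (t⁻¹ g') ...`. -/
def alt {K : Type} (g g' : K) : ℕ → List (ℤˣ × K)
  | 0 => []
  | k + 1 => (1, g) :: (-1, g') :: alt g g' k

theorem alt_chain {K : Type} [Group K] {P Q : Subgroup K} {g g' : K} (hg : g ∉ P) (hg' : g' ∉ Q) :
    ∀ k : ℕ, (alt g g' k).IsChain (fun a b => a.2 ∈ toSubgroup P Q a.1 → a.1 = b.1)
  | 0 => List.isChain_nil
  | 1 => by
    rw [alt, alt, List.isChain_cons_cons]
    exact ⟨fun h => absurd h hg, List.isChain_singleton _⟩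
  | k + 2 => by
    have ih := alt_chain hg hg' (k + 1)
    rw [alt] at ih ⊢
    rw [List.isChain_cons_cons]
    refine ⟨fun h => absurd h hg, ?_⟩
    rw [alt, List.isChain_cons_cons]
    exact ⟨fun h => absurd h hg', ih⟩

theorem alt_prod {K : Type} [Group K] {P Q : Subgroup K} {φ : P ≃* Q} (g g' : K) (k : ℕ) :
    ((alt g g' k).map (fun x => (t : HNNExtension K P Q φ) ^ (x.1 : ℤ) * of x.2)).prod =
      (t * of g * (t⁻¹ * of g')) ^ k := by
  induction k with
  | zero => simp [alt]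
  | succ k ih =>
    rw [alt, List.map_cons, List.map_cons, List.prod_cons, List.prod_cons, ih, pow_succ']
    simp [mul_assoc]

theorem bsh_undistorted (hm2 : 2 ≤ |m|) (hn2 : 2 ≤ |n|) (h : HasSystem (BSH hm hn)) :
    Undistorted ((mulHom n).range.map (of (φ := bsIso hm hn))) := by
  have e1 : ∀ k : ℤ, |k| = 1 → ∀ l : ℤ, 2 ≤ |l| → ofAdd k ∉ (mulHom l).range := by
    intro k hk l hl hmem
    rw [mem_range_mulHom] at hmem
    have h1 : |l| ∣ 1 := by rw [← hk]; exact (abs_dvd_abs l k).2 hmem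
    have h2 := Int.le_of_dvd one_pos h1
    omega
  have hcomm : ∀ b ∈ (mulHom n).range, (t * of (ofAdd 1) * (t⁻¹ * of (ofAdd 1)) : BSH hm hn) * of b
      = of b * (t * of (ofAdd 1) * (t⁻¹ * of (ofAdd 1))) := by
    intro b hb
    have h1 : of (ofAdd 1) * (of b : BSH hm hn) = of b * of (ofAdd 1) := by
      rw [← map_mul, ← map_mul, mul_comm]
    have h2 := inv_t_mul_of (φ := bsIso hm hn) ⟨b, hb⟩
    have h3 := t_mul_of (φ := bsIso hm hn) ((bsIso hm hn).symm ⟨b, hb⟩)
    rw [MulEquiv.apply_symm_apply] at h3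
    set b' := ((bsIso hm hn).symm ⟨b, hb⟩ : (mulHom m).range).1 with hb'
    have h4 : of (ofAdd 1) * (of b' : BSH hm hn) = of b' * of (ofAdd 1) := by
      rw [← map_mul, ← map_mul, mul_comm]
    calc (t * of (ofAdd 1) * (t⁻¹ * of (ofAdd 1)) : BSH hm hn) * of b
        = t * of (ofAdd 1) * (t⁻¹ * (of (ofAdd 1) * of b)) := by group
      _ = t * of (ofAdd 1) * (t⁻¹ * of b * of (ofAdd 1)) := by rw [h1]; group
      _ = t * (of (ofAdd 1) * of b') * (t⁻¹ * of (ofAdd 1)) := by rw [h2]; group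
      _ = t * of b' * (of (ofAdd 1) * (t⁻¹ * of (ofAdd 1))) := by rw [h4]; group
      _ = of b * (t * of (ofAdd 1) * (t⁻¹ * of (ofAdd 1))) := by rw [h3]; group
  refine undistorted_of_wall h (isWall_startSet hcomm ⟨1, fun j hj => ?_⟩ ⟨0, fun j _ => ?_⟩)
  · have h1 := alt_prod (φ := bsIso hm hn) (ofAdd 1) (ofAdd 1) j
    have hc := alt_chain (e1 1 (by simp) m hm2) (e1 1 (by simp) n hn2) j
    have h2 : (⟨1, alt (ofAdd 1) (ofAdd 1) j, hc⟩ : ReducedWord _ _ _).prod (bsIso hm hn) =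
        (t * of (ofAdd 1) * (t⁻¹ * of (ofAdd 1))) ^ j := by
      rw [prod_mk, h1]; simp
    rw [← h2, mem_startSet_iff]
    obtain ⟨i, rfl⟩ : ∃ i, j = i + 1 := ⟨j - 1, by omega⟩
    exact ⟨rfl, Subgroup.one_mem _⟩
  · have h1 := alt_prod (φ := bsIso hm hn) (ofAdd (-1)) (ofAdd (-1)) j
    have hc := alt_chain (e1 (-1) (by simp) m hm2) (e1 (-1) (by simp) n hn2) j
    have h2 : (⟨ofAdd (-1), alt (ofAdd (-1)) (ofAdd (-1)) j, hc⟩ :
        ReducedWord _ _ _).prod (bsIso hm hn) =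
        ((t * of (ofAdd 1) * (t⁻¹ * of (ofAdd 1))) ^ j)⁻¹ * of (ofAdd (-1)) := by
      rw [prod_mk, h1]
      have h3 : (of (ofAdd (-1)) : BSH hm hn) = (of (ofAdd 1))⁻¹ := by
        rw [← map_inv]; rfl
      rw [h3]
      generalize (of (ofAdd 1) : BSH hm hn) = x
      rw [← inv_pow]
      have h4 : (t * x * (t⁻¹ * x) : BSH hm hn)⁻¹ = x⁻¹ * (t * x⁻¹ * (t⁻¹ * x⁻¹)) * x⁻¹⁻¹ := by
        group
      rw [h4, conj_pow]
      group
    rw [startSet_mul_of _ (ofAdd (-1)), ← h2, mem_startSet_iff]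
    rintro ⟨_, h3⟩
    exact e1 (-1) (by simp) n hn2 h3

theorem bsh_abs_eq (hm2 : 2 ≤ |m|) (hn2 : 2 ≤ |n|) (h : HasSystem (BSH hm hn)) : |m| = |n| := by
  have hU := bsh_undistorted hm hn hm2 hn2 h
  have hpow : ∀ k : ℤ, (of (ofAdd 1) : BSH hm hn) ^ k = of (ofAdd k) := by
    intro k
    rw [← map_zpow (of (φ := bsIso hm hn)), ← ofAdd_zsmul, smul_eq_mul, mul_one]
  have hinj : Function.Injective (fun k : ℤ => (of (ofAdd 1) : BSH hm hn) ^ k) := by
    intro x y hxy
    simp only [hpow] at hxy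
    exact ofAdd.injective (of_injective (bsIso hm hn) hxy)
  have hC : ∀ x ∈ (mulHom n).range.map (of (φ := bsIso hm hn)), ∃ e : ℤ,
      x = of (ofAdd 1) ^ e := by
    rintro _ ⟨b, _, rfl⟩
    obtain ⟨k, rfl⟩ := ofAdd.surjective b
    exact ⟨k, (hpow k).symm⟩
  have hcC : (of (ofAdd 1) : BSH hm hn) ^ n ∈ (mulHom n).range.map (of (φ := bsIso hm hn)) := by
    rw [hpow]
    exact Subgroup.mem_map_of_mem _ ((mem_range_mulHom n n).2 dvd_rfl)
  have hrel := bsh_rel hm hn
  rw [Int.abs_eq_natAbs] at hm2 hn2 ⊢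
  rw [Int.abs_eq_natAbs]
  rcases lt_trichotomy m.natAbs n.natAbs with h1 | h1 | h1
  · exact absurd hU (not_undistorted hrel (by omega) h1 hinj hn _ hC hcC)
  · omega
  · have hrel' : (t : BSH hm hn)⁻¹ * of (ofAdd 1) ^ n = of (ofAdd 1) ^ m * t⁻¹ := by
      rw [inv_mul_eq_iff_eq_mul, ← mul_assoc, hrel]
      group
    exact absurd hU (not_undistorted hrel' (by omega) h1 hinj hn _ hC hcC)

omit hm hn in
theorem bs_abs_eq (hm2 : 2 ≤ |m|) (hn2 : 2 ≤ |n|) (h : HasSystem (BS m n)) : |m| = |n| := by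
  have hm : m ≠ 0 := by rintro rfl; simp at hm2
  have hn : n ≠ 0 := by rintro rfl; simp at hn2
  exact bsh_abs_eq hm hn hm2 hn2 (h.of_equiv (bsEquiv hm hn))

end iso

end Pool.Agent.SLX
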