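import Mathlib
import Pool.Agent.SLX.Triv
import Pool.Agent.SLX.Apps
/-!
# The groups `K *_C (C × D)`
-/
namespace Pool.Agent.SLX
open SemidirectProduct

/-- The commutators of the elements of `C` and the elements of `D` in the free product. -/
def camRel {K : Type} [Group K] (C : Subgroup K) (D : Type) [Group D] : Set (Monoid.Coprod K D) :=
  {x | ∃ c ∈ C, ∃ d : D, x = Monoid.Coprod.inl c * Monoid.Coprod.inr d *
    (Monoid.Coprod.inl c)⁻¹ * (Monoid.Coprod.inr d)⁻¹}

/-- The amalgamated product `K *_C (C × D)`: the quotient of the free product of `K` and `D` by the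
relations `c d = d c` for `c` in `C` and `d` in `D`. -/
abbrev CAmalgam {K : Type} [Group K] (C : Subgroup K) (D : Type) [Group D] : Type :=
  Monoid.Coprod K D ⧸ Subgroup.normalClosure (camRel C D)

namespace CAmalgam

variable {K D : Type} [Group K] [Group D] {C : Subgroup K}

/-- The map from `K`. -/
def ofK (C : Subgroup K) (D : Type) [Group D] : K →* CAmalgam C D :=
  (QuotientGroup.mk' _).comp Monoid.Coprod.inl

/-- The map from `D`. -/
def ofD (C : Subgroup K) (D : Type) [Group D] : D →* CAmalgam C D :=
  (QuotientGroup.mk' _).comp Monoid.Coprod.inr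

theorem comm {c : K} (hc : c ∈ C) (d : D) : ofK C D c * ofD C D d = ofD C D d * ofK C D c := by
  have h1 : (QuotientGroup.mk' (Subgroup.normalClosure (camRel C D)))
      (Monoid.Coprod.inl c * Monoid.Coprod.inr d *
        (Monoid.Coprod.inl c)⁻¹ * (Monoid.Coprod.inr d)⁻¹) = 1 := by
    rw [QuotientGroup.mk'_apply, QuotientGroup.eq_one_iff]
    exact Subgroup.subset_normalClosure ⟨c, hc, d, rfl⟩
  rw [map_mul, map_mul, map_mul, map_inv, map_inv, mul_inv_eq_one, mul_inv_eq_iff_eq_mul] at h1
  exact h1

/-- The universal property. -/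
def lift {H : Type} [Group H] (f : K →* H) (g : D →* H)
    (hfg : ∀ c ∈ C, ∀ d, f c * g d = g d * f c) : CAmalgam C D →* H :=
  QuotientGroup.lift _ (Monoid.Coprod.lift f g) (by
    change Subgroup.normalClosure (camRel C D) ≤ (Monoid.Coprod.lift f g).ker
    apply Subgroup.normalClosure_le_normal
    rintro _ ⟨c, hc, d, rfl⟩
    rw [SetLike.mem_coe, MonoidHom.mem_ker, map_mul, map_mul, map_mul, map_inv, map_inv,
      Monoid.Coprod.lift_apply_inl, Monoid.Coprod.lift_apply_inr, hfg c hc d]
    group)

theorem lift_ofK {H : Type} [Group H] (f : K →* H) (g : D →* H)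
    (hfg : ∀ c ∈ C, ∀ d, f c * g d = g d * f c) (x : K) : lift f g hfg (ofK C D x) = f x := by
  change (Monoid.Coprod.lift f g) (Monoid.Coprod.inl x) = f x
  exact Monoid.Coprod.lift_apply_inl f g x

theorem lift_ofD {H : Type} [Group H] (f : K →* H) (g : D →* H)
    (hfg : ∀ c ∈ C, ∀ d, f c * g d = g d * f c) (x : D) : lift f g hfg (ofD C D x) = g x := by
  change (Monoid.Coprod.lift f g) (Monoid.Coprod.inr x) = g x
  exact Monoid.Coprod.lift_apply_inr f g x

theorem induction {P : CAmalgam C D → Prop} (hK : ∀ x, P (ofK C D x)) (hD : ∀ x, P (ofD C D x))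
    (hmul : ∀ x y, P x → P y → P (x * y)) (x : CAmalgam C D) : P x := by
  obtain ⟨x, rfl⟩ := QuotientGroup.mk'_surjective _ x
  induction x using Monoid.Coprod.induction_on with
  | inl x => exact hK x
  | inr x => exact hD x
  | mul x y hx hy =>
    rw [map_mul]
    exact hmul _ _ hx hy

/-- The retraction onto `K`. -/
def retK : CAmalgam C D →* K := lift (MonoidHom.id K) 1 (by simp)

/-- The retraction onto `D`. -/
def retD : CAmalgam C D →* D := lift 1 (MonoidHom.id D) (by simp)

theorem retK_ofK (x : K) : retK (ofK C D x) = x := lift_ofK _ _ _ x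
theorem retK_ofD (x : D) : retK (ofD C D x) = 1 := lift_ofD _ _ _ x
theorem retD_ofK (x : K) : retD (ofK C D x) = 1 := lift_ofK _ _ _ x
theorem retD_ofD (x : D) : retD (ofD C D x) = x := lift_ofD _ _ _ x

theorem ofK_injective : Function.Injective (ofK C D) := by
  intro x y h
  rw [← retK_ofK (C := C) (D := D) x, h, retK_ofK]

theorem ofD_injective : Function.Injective (ofD C D) := by
  intro x y h
  rw [← retD_ofD (C := C) x, h, retD_ofD]

/-- The subgroup `C × D`. -/
def subN (C : Subgroup K) (D : Type) [Group D] : Subgroup (CAmalgam C D) where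
  carrier := {x | ∃ c ∈ C, ∃ d : D, x = ofK C D c * ofD C D d}
  mul_mem' := by
    rintro _ _ ⟨c, hc, d, rfl⟩ ⟨c', hc', d', rfl⟩
    refine ⟨c * c', C.mul_mem hc hc', d * d', ?_⟩
    rw [map_mul, map_mul]
    calc ofK C D c * ofD C D d * (ofK C D c' * ofD C D d')
        = ofK C D c * (ofD C D d * ofK C D c') * ofD C D d' := by group
      _ = _ := by rw [← comm hc' d]; group
  one_mem' := ⟨1, C.one_mem, 1, by simp⟩
  inv_mem' := by
    rintro _ ⟨c, hc, d, rfl⟩
    refine ⟨c⁻¹, C.inv_mem hc, d⁻¹, ?_⟩
    rw [mul_inv_rev, ← map_inv, ← map_inv, comm (C.inv_mem hc)]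

theorem ofK_mem {c : K} (hc : c ∈ C) : ofK C D c ∈ subN C D := ⟨c, hc, 1, by simp⟩

theorem ofD_mem (d : D) : ofD C D d ∈ subN C D := ⟨1, C.one_mem, d, by simp⟩

/-- The base point. -/
abbrev base (C : Subgroup K) (D : Type) [Group D] : CAmalgam C D ⧸ subN C D :=
  QuotientGroup.mk 1

theorem smul_base {x : CAmalgam C D} (hx : x ∈ subN C D) : x • base C D = base C D := by
  change QuotientGroup.mk (x * 1) = QuotientGroup.mk 1
  rw [QuotientGroup.eq]
  simpa using (subN C D).inv_mem hx

theorem smul_base_iff {x : CAmalgam C D} {p : CAmalgam C D ⧸ subN C D} (hx : x ∈ subN C D) :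
    x⁻¹ • p = base C D ↔ p = base C D := by
  constructor
  · intro h
    have : p = x • (x⁻¹ • p) := by rw [smul_inv_smul]
    rw [this, h, smul_base hx]
  · rintro rfl
    exact smul_base ((subN C D).inv_mem hx)

open Classical in
/-- The function which is `d` at the base point and `1` elsewhere. -/
noncomputable def delta (C : Subgroup K) (D : Type) [Group D] (d : D) :
    CAmalgam C D ⧸ subN C D → D :=
  fun p => if p = base C D then d else 1

theorem delta_base (d : D) : delta C D d (base C D) = d := by
  classical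
  unfold delta
  rw [if_pos rfl]

theorem delta_ne (d : D) {p : CAmalgam C D ⧸ subN C D} (hp : p ≠ base C D) :
    delta C D d p = 1 := by
  classical
  unfold delta
  rw [if_neg hp]

theorem delta_smul {x : CAmalgam C D} (hx : x ∈ subN C D) (d : D) :
    mulAutArrow x (delta C D d) = delta C D d := by
  classical
  funext p
  change delta C D d (x⁻¹ • p) = delta C D d p
  by_cases hp : p = base C D
  · rw [(smul_base_iff hx).2 hp, hp]
  · rw [delta_ne d hp, delta_ne d]
    intro h
    exact hp ((smul_base_iff hx).1 h)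

theorem delta_mul (d d' : D) : delta C D (d * d') = delta C D d * delta C D d' := by
  classical
  funext p
  rw [Pi.mul_apply]
  by_cases hp : p = base C D
  · rw [hp, delta_base, delta_base, delta_base]
  · rw [delta_ne _ hp, delta_ne _ hp, delta_ne _ hp, mul_one]

/-- The wreath product. -/
abbrev Wr (C : Subgroup K) (D : Type) [Group D] : Type :=
  (CAmalgam C D ⧸ subN C D → D) ⋊[mulAutArrow] CAmalgam C D

/-- The map from `D` to the wreath product. -/
noncomputable def wrD (C : Subgroup K) (D : Type) [Group D] : D →* Wr C D where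
  toFun d := ⟨delta C D d, ofD C D d⟩
  map_one' := by
    apply SemidirectProduct.ext
    · funext p
      classical
      change delta C D 1 p = 1
      unfold delta
      split <;> rfl
    · exact map_one _
  map_mul' d d' := by
    apply SemidirectProduct.ext
    · rw [mul_left, delta_smul (ofD_mem d), ← delta_mul]
    · exact map_mul _ _ _

/-- The map to the wreath product. -/
noncomputable def toWr (C : Subgroup K) (D : Type) [Group D] : CAmalgam C D →* Wr C D :=
  lift (SemidirectProduct.inr.comp (ofK C D)) (wrD C D) (by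
    intro c hc d
    apply SemidirectProduct.ext
    · rw [mul_left, mul_left]
      change 1 * mulAutArrow (ofK C D c) (delta C D d) =
        delta C D d * mulAutArrow (ofD C D d) 1
      rw [delta_smul (ofK_mem hc), map_one, one_mul, mul_one]
    · exact comm hc d)

theorem toWr_right (x : CAmalgam C D) : (toWr C D x).right = x := by
  induction x using induction with
  | hK x => rw [toWr, lift_ofK]; rfl
  | hD x => rw [toWr, lift_ofD]; rfl
  | hmul x y hx hy => rw [map_mul, mul_right, hx, hy]

/-- The cocycle. -/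
noncomputable def bet (x : CAmalgam C D) (p : CAmalgam C D ⧸ subN C D) : D :=
  (toWr C D x).left p

theorem bet_mul (x y : CAmalgam C D) (p : CAmalgam C D ⧸ subN C D) :
    bet (x * y) p = bet x p * bet y (x⁻¹ • p) := by
  unfold bet
  rw [map_mul, mul_left, toWr_right]
  rfl

theorem bet_ofK (x : K) (p : CAmalgam C D ⧸ subN C D) : bet (ofK C D x) p = 1 := by
  unfold bet
  rw [toWr, lift_ofK]
  rfl

theorem bet_ofD (x : D) (p : CAmalgam C D ⧸ subN C D) : bet (ofD C D x) p = delta C D x p := by
  unfold bet
  rw [toWr, lift_ofD]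
  rfl

theorem bet_finite (x : CAmalgam C D) : {p | bet x p ≠ 1}.Finite := by
  induction x using induction with
  | hK x => simp [bet_ofK]
  | hD x =>
    refine (Set.finite_singleton (base C D)).subset ?_
    intro p hp
    rw [Set.mem_ofPred_eq, bet_ofD] at hp
    by_contra h
    exact hp (delta_ne x h)
  | hmul x y hx hy =>
    refine (hx.union (hy.image (fun p => x • p))).subset ?_
    intro p hp
    rw [Set.mem_ofPred_eq, bet_mul] at hp
    by_cases h1 : bet x p = 1
    · right
      refine ⟨x⁻¹ • p, ?_, smul_inv_smul x p⟩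
      rw [h1, one_mul] at hp
      exact hp
    · left; exact h1

/-- The trivialization. -/
noncomputable def triv (C : Subgroup K) (D : Type) [Group D] (x : CAmalgam C D) :
    (ofD C D).range := ⟨ofD C D (bet x (base C D)), ⟨_, rfl⟩⟩

theorem isTriv (hD : ∃ d : D, d ≠ 1) : IsTriv (C.map (ofK C D)) (ofD C D).range (triv C D) := by
  refine ⟨?_, ?_, ?_, ?_, ?_⟩
  · rintro _ ⟨c, hc, rfl⟩ _ ⟨d, rfl⟩
    exact comm hc d
  · rintro _ ⟨c, hc, rfl⟩ ⟨d, hd⟩
    have h1 := congrArg retK hd
    rw [retK_ofD, retK_ofK] at h1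
    rw [← h1, map_one]
  · obtain ⟨d, hd⟩ := hD
    refine ⟨ofD C D d, ⟨d, rfl⟩, ?_⟩
    intro h
    exact hd (ofD_injective (h.trans (map_one _).symm))
  · rintro _ ⟨c, hc, rfl⟩ ⟨_, d, rfl⟩ x
    apply Subtype.ext
    change ofD C D (bet (ofK C D c * ofD C D d * x) (base C D)) =
      ofD C D d * ofD C D (bet x (base C D))
    rw [bet_mul, bet_mul, bet_ofK, bet_ofD, one_mul,
      smul_base ((subN C D).inv_mem (ofK_mem hc)), delta_base,
      smul_base ((subN C D).inv_mem ((subN C D).mul_mem (ofK_mem hc) (ofD_mem d))), map_mul]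
  · intro s
    refine ⟨(fun p : CAmalgam C D ⧸ subN C D => (Quotient.out p)⁻¹) '' {p | bet s p ≠ 1},
      (bet_finite s).image _, fun x => ?_⟩
    by_cases h : bet s (x⁻¹ • base C D) = 1
    · left
      apply Subtype.ext
      change ofD C D (bet (x * s) (base C D)) = ofD C D (bet x (base C D))
      rw [bet_mul, h, mul_one]
    · right
      have h1 : (QuotientGroup.mk (Quotient.out (x⁻¹ • base C D)) : CAmalgam C D ⧸ subN C D) =
          QuotientGroup.mk x⁻¹ := by
        rw [QuotientGroup.out_eq']
        change QuotientGroup.mk (x⁻¹ * 1) = _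
        rw [mul_one]
      rw [QuotientGroup.eq] at h1
      set o := Quotient.out (x⁻¹ • base C D) with ho
      have h2 : x * o ∈ subN C D := by
        have := (subN C D).inv_mem h1
        simpa using this
      obtain ⟨c, hc, d, hcd⟩ := h2
      refine ⟨ofK C D c, ⟨c, hc, rfl⟩, ofD C D d, ⟨d, rfl⟩, o⁻¹, ⟨_, h, rfl⟩, ?_⟩
      rw [← hcd]; group

/-- If `K *_C (C × D)` has a finite complete ShortLex system and `D` is not trivial then `C` is
finitely generated and undistorted in `K`. -/
theorem undistorted (hD : ∃ d : D, d ≠ 1) (h : HasSystem (CAmalgam C D)) : Undistorted C :=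
  (undistorted_of_triv h (isTriv hD)).of_map _ ofK_injective

end CAmalgam

end Pool.Agent.SLX
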